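import Pool.Agent.Q97.FP2.Cut

set_option autoImplicit false
set_option linter.unusedSectionVars false

/-!
# Lipschitz self-maps of the quotient by a line
-/

namespace Q97.FP2

open Filter Topology Finset

/-- The properties of the pair `(Y, e)` used below. -/
structure Rigid (p : ℝ) {Y : Type} [NormedAddCommGroup Y] [Module ℝ Y] (e : Y)
    [IsClosed (Submodule.span ℝ {e} : Set Y)] : Prop where
  pos : 0 < p
  smul : ∀ (t : ℝ) (y : Y), ‖t • y‖ = |t| ^ p * ‖y‖
  e_pos : 0 < ‖e‖
  realc : ∀ (m : Y → ℝ) (L : ℝ), (∀ x y, |m x - m y| ^ p ≤ L * ‖x - y‖) → ∀ x y, m x = m y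
  lift : ∀ (g : Y → Y ⧸ Submodule.span ℝ {e}) (L : ℝ), (∀ x y, ‖g x - g y‖ ≤ L * ‖x - y‖) →
    ∃ (G : Y → Y) (M : ℝ), 0 ≤ M ∧ (∀ x y, ‖G x - G y‖ ≤ M * ‖x - y‖) ∧
      ∀ x, (Submodule.Quotient.mk (G x) : Y ⧸ Submodule.span ℝ {e}) = g x

variable {p : ℝ} {Y : Type} [NormedAddCommGroup Y] [Module ℝ Y] {e : Y}
  [hS : IsClosed (Submodule.span ℝ {e} : Set Y)]

theorem mem_S_of_mk_eq {x y : Y}
    (h : (Submodule.Quotient.mk x : Y ⧸ Submodule.span ℝ {e}) = Submodule.Quotient.mk y) :
    ∃ c : ℝ, c • e = x - y :=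
  Submodule.mem_span_singleton.mp ((Submodule.Quotient.eq _).mp h)

theorem mk_smul_e (c : ℝ) :
    (Submodule.Quotient.mk (c • e) : Y ⧸ Submodule.span ℝ {e}) = 0 :=
  (Submodule.Quotient.mk_eq_zero _).mpr (Submodule.smul_mem _ _ (Submodule.mem_span_singleton_self e))

theorem smul_e_inj (h : Rigid p e) {c d : ℝ} (hcd : c • e = d • e) : c = d := by
  have h1 : (c - d) • e = 0 := by rw [sub_smul, hcd, sub_self]
  have h2 : |c - d| ^ p * ‖e‖ = 0 := by rw [← h.smul, h1, norm_zero]
  have h3 : |c - d| ^ p = 0 := by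
    rcases mul_eq_zero.mp h2 with h4 | h4
    · exact h4
    · exact absurd h4 h.e_pos.ne'
  rw [Real.rpow_eq_zero (abs_nonneg _) h.pos.ne'] at h3
  linarith [abs_eq_zero.mp h3]

/-- A Lipschitz map into `Y` with values in translates of the line has constant coordinate. -/
theorem coord_const (h : Rigid p e) (m : Y → ℝ) (L : ℝ)
    (hm : ∀ x y, ‖m x • e - m y • e‖ ≤ L * ‖x - y‖) (x y : Y) : m x = m y := by
  refine h.realc m (L / ‖e‖) (fun x y => ?_) x y
  have h1 := hm x y
  rw [← sub_smul, h.smul] at h1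
  rw [div_mul_eq_mul_div, le_div_iff₀ h.e_pos]
  exact h1

theorem norm_mk_sub_le (x y : Y) :
    ‖(Submodule.Quotient.mk x : Y ⧸ Submodule.span ℝ {e}) - Submodule.Quotient.mk y‖ ≤ ‖x - y‖ := by
  rw [← Submodule.Quotient.mk_sub]
  exact Submodule.Quotient.norm_mk_le _ _

/-- Lipschitz maps that are invariant under the line factor through the quotient. -/
theorem exists_factor (k : Y → Y) {M : ℝ} (hM : 0 ≤ M) (hk : ∀ x y, ‖k x - k y‖ ≤ M * ‖x - y‖)
    (hinv : ∀ (c : ℝ) y, k (y + c • e) = k y) :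
    ∃ k' : Y ⧸ Submodule.span ℝ {e} → Y, (∀ y, k' (Submodule.Quotient.mk y) = k y) ∧
      ∀ x y, ‖k' x - k' y‖ ≤ M * ‖x - y‖ := by
  have hfac : ∀ x y : Y, (Submodule.Quotient.mk x : Y ⧸ Submodule.span ℝ {e}) =
      Submodule.Quotient.mk y → k x = k y := by
    intro x y hxy
    obtain ⟨c, hc⟩ := mem_S_of_mk_eq hxy
    have h1 := hinv c y
    rw [hc, add_sub_cancel] at h1
    exact h1
  choose s hs using (Submodule.Quotient.mk_surjective (Submodule.span ℝ {e}) :
    Function.Surjective (Submodule.Quotient.mk : Y → Y ⧸ Submodule.span ℝ {e}))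
  refine ⟨fun x => k (s x), fun y => hfac _ _ (hs _), ?_⟩
  intro x y
  change ‖k (s x) - k (s y)‖ ≤ _
  apply le_of_forall_pos_le_add
  intro ε hε
  obtain ⟨w, hw1, hw2⟩ := Submodule.Quotient.norm_mk_lt (x - y)
    (div_pos hε (by positivity : 0 < M + 1))
  have h1 : (Submodule.Quotient.mk (s y + w) : Y ⧸ Submodule.span ℝ {e}) =
      Submodule.Quotient.mk (s x) := by
    rw [Submodule.Quotient.mk_add, hs, hs, hw1]
    abel
  rw [← hfac _ _ h1]
  refine (hk _ _).trans ?_
  rw [add_sub_cancel_left]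
  have h2 : M * ‖w‖ ≤ M * (‖x - y‖ + ε / (M + 1)) := mul_le_mul_of_nonneg_left hw2.le hM
  refine h2.trans ?_
  rw [mul_add]
  have h3 : M * (ε / (M + 1)) ≤ ε := by
    rw [mul_div_assoc', div_le_iff₀ (by positivity)]
    nlinarith
  linarith

/-- The decomposition of Lipschitz self-maps of the quotient. -/
theorem decomp (h : Rigid p e) (g : Y ⧸ Submodule.span ℝ {e} → Y ⧸ Submodule.span ℝ {e})
    (hg0 : g 0 = 0) {L : ℝ} (hL : 0 ≤ L) (hg : ∀ x y, ‖g x - g y‖ ≤ L * ‖x - y‖) :
    ∃ (χ : ℝ) (k : Y ⧸ Submodule.span ℝ {e} → Y) (M : ℝ), 0 ≤ M ∧ k 0 = 0 ∧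
      (∀ x y, ‖k x - k y‖ ≤ M * ‖x - y‖) ∧
      ∀ x, g x = χ • x + Submodule.Quotient.mk (k x) := by
  obtain ⟨G, M, hM, hG, hGg⟩ := h.lift (fun y => g (Submodule.Quotient.mk y)) L (fun x y =>
    (hg _ _).trans (mul_le_mul_of_nonneg_left (norm_mk_sub_le _ _) hL))
  -- the increments along the line
  have hinc : ∀ (c : ℝ) (y : Y), ∃ t : ℝ, t • e = G (y + c • e) - G y := by
    intro c y
    apply mem_S_of_mk_eq
    rw [hGg, hGg]
    change g (Submodule.Quotient.mk (y + c • e)) = g (Submodule.Quotient.mk y)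
    rw [Submodule.Quotient.mk_add, mk_smul_e, add_zero]
  choose τ hτ using hinc
  have hconst : ∀ c x y, τ c x = τ c y := by
    intro c x y
    refine coord_const h (τ c) (2 * M) (fun x y => ?_) x y
    rw [hτ, hτ]
    have e1 : G (x + c • e) - G x - (G (y + c • e) - G y) =
        (G (x + c • e) - G (y + c • e)) - (G x - G y) := by abel
    rw [e1]
    refine (norm_sub_le _ _).trans ?_
    have h1 := hG (x + c • e) (y + c • e)
    have h2 := hG x y
    have e2 : x + c • e - (y + c • e) = x - y := by abel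
    rw [e2] at h1
    linarith
  have hadd : ∀ c d, τ (c + d) 0 = τ c 0 + τ d 0 := by
    intro c d
    apply smul_e_inj h
    have h1 := hτ (c + d) 0
    have h2 := hτ c 0
    have h3 := hτ d (c • e)
    rw [hconst d (c • e) 0] at h3
    rw [add_smul c d e] at h1
    rw [zero_add] at h1 h2
    rw [add_smul, h1, h2, h3]
    abel
  have hcont : Continuous (fun c => τ c 0) := by
    have hbd : ∀ c, |τ c 0| ≤ M ^ (1 / p) * |c| := by
      intro c
      have h1 : ‖τ c 0 • e‖ ≤ M * ‖c • e‖ := by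
        rw [hτ]
        have h2 := hG (0 + c • e) 0
        have e2 : (0 : Y) + c • e - 0 = c • e := by abel
        rwa [e2] at h2
      rw [h.smul, h.smul, ← mul_assoc] at h1
      have h2 := le_of_mul_le_mul_right h1 h.e_pos
      have h3 := Real.rpow_le_rpow (by positivity) h2 (by have := h.pos; positivity : 0 ≤ 1 / p)
      rw [Real.mul_rpow hM (by positivity), ← Real.rpow_mul (abs_nonneg _),
        ← Real.rpow_mul (abs_nonneg _), mul_one_div_cancel h.pos.ne', Real.rpow_one,
        Real.rpow_one] at h3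
      exact h3
    have hl : LipschitzWith (Real.toNNReal (M ^ (1 / p))) (fun c => τ c 0) := by
      apply LipschitzWith.of_dist_le_mul
      intro c d
      rw [Real.dist_eq, Real.dist_eq, Real.coe_toNNReal _ (by positivity)]
      have h1 : τ c 0 - τ d 0 = τ (c - d) 0 := by
        have h2 := hadd (c - d) d
        rw [sub_add_cancel] at h2
        linarith
      rw [h1]
      exact hbd _
    exact hl.continuous
  have hlin : ∀ c, τ c 0 = c * τ 1 0 := by
    let f : ℝ →+ ℝ := AddMonoidHom.mk' (fun c => τ c 0) hadd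
    have h1 := (f.toRealLinearMap hcont).map_smul
    intro c
    have h2 := h1 c 1
    simp only [smul_eq_mul, mul_one] at h2
    exact h2
  let χ := τ 1 0
  have hGinv : ∀ (c : ℝ) y, G (y + c • e) - χ • (y + c • e) = G y - χ • y := by
    intro c y
    have h1 := hτ c y
    rw [hconst c y 0, hlin c] at h1
    have h2 : G (y + c • e) = G y + (c * τ 1 0) • e := by
      rw [h1]; abel
    rw [h2, smul_add, smul_smul, mul_comm c]
    abel
  obtain ⟨k, hk1, hk2⟩ := exists_factor (e := e) (fun y => G y - χ • y - G 0)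
    (M := M + |χ| ^ p) (by positivity) (fun x y => by
      have e1 : G x - χ • x - G 0 - (G y - χ • y - G 0) = (G x - G y) - χ • (x - y) := by
        rw [smul_sub]; abel
      rw [e1, add_mul, ← h.smul]
      exact (norm_sub_le _ _).trans (add_le_add (hG _ _) le_rfl))
    (fun c y => by rw [hGinv])
  refine ⟨χ, k, M + |χ| ^ p, by positivity, ?_, hk2, ?_⟩
  · have h1 := hk1 0
    rw [Submodule.Quotient.mk_zero] at h1
    rw [h1, smul_zero, sub_zero, sub_self]
  · intro x
    obtain ⟨y, rfl⟩ := Submodule.Quotient.mk_surjective _ x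
    rw [hk1, Submodule.Quotient.mk_sub, Submodule.Quotient.mk_sub, hGg, hGg,
      Submodule.Quotient.mk_zero, hg0, sub_zero, Submodule.Quotient.mk_smul]
    abel

/-- The identity of the quotient cannot be lifted. -/
theorem not_lift (h : Rigid p e) (χ : ℝ) (k : Y ⧸ Submodule.span ℝ {e} → Y) {M : ℝ} (hM : 0 ≤ M)
    (hk : ∀ x y, ‖k x - k y‖ ≤ M * ‖x - y‖)
    (hχ : ∀ x, χ • x + (Submodule.Quotient.mk (k x) : Y ⧸ Submodule.span ℝ {e}) = 0) : χ = 0 := by
  by_contra hne
  have hmem : ∀ y : Y, ∃ c : ℝ, c • e = y - (-χ⁻¹) • k (Submodule.Quotient.mk y) := by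
    intro y
    apply mem_S_of_mk_eq
    rw [Submodule.Quotient.mk_smul]
    have h1 := hχ (Submodule.Quotient.mk y)
    have h2 : (Submodule.Quotient.mk (k (Submodule.Quotient.mk y)) : Y ⧸ Submodule.span ℝ {e}) =
        -(χ • Submodule.Quotient.mk y) := (neg_eq_of_add_eq_zero_right h1).symm
    rw [h2, neg_smul, smul_neg, neg_neg, smul_smul, inv_mul_cancel₀ hne, one_smul]
  choose m hm using hmem
  have h1 := coord_const h m (1 + |(-χ⁻¹)| ^ p * M) (fun x y => by
    rw [hm, hm]
    have e1 : x - (-χ⁻¹) • k (Submodule.Quotient.mk x) -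
        (y - (-χ⁻¹) • k (Submodule.Quotient.mk y)) =
        (x - y) - (-χ⁻¹) • (k (Submodule.Quotient.mk x) - k (Submodule.Quotient.mk y)) := by
      rw [smul_sub]; abel
    rw [e1]
    refine (norm_sub_le _ _).trans ?_
    rw [h.smul, add_mul, one_mul, mul_assoc]
    apply add_le_add le_rfl
    apply mul_le_mul_of_nonneg_left _ (by positivity)
    exact (hk _ _).trans (mul_le_mul_of_nonneg_left (norm_mk_sub_le _ _) hM)) e 0
  have h2 := hm e
  have h3 := hm 0
  rw [h1] at h2
  rw [h2] at h3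
  have h4 : (Submodule.Quotient.mk e : Y ⧸ Submodule.span ℝ {e}) = Submodule.Quotient.mk 0 := by
    have := mk_smul_e (e := e) 1
    rwa [one_smul] at this
  rw [h4] at h3
  have h5 : e = 0 := by
    have := sub_left_inj.mp h3
    exact this
  exact absurd h.e_pos (by rw [h5, norm_zero]; exact lt_irrefl _)

end Q97.FP2
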