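import Mathlib

set_option autoImplicit false
set_option linter.unusedSectionVars false

/-!
# Completions of spaces with a `p`-homogeneous seminorm
-/

namespace Q97.FP2

open Filter Topology

/-- `p`-homogeneous seminorms. -/
structure PS (p : ℝ) {V : Type} [AddCommGroup V] [Module ℝ V] (N : V → ℝ) : Prop where
  nonneg : ∀ v, 0 ≤ N v
  add_le : ∀ v w, N (v + w) ≤ N v + N w
  smul : ∀ (t : ℝ) v, N (t • v) = |t| ^ p * N v

section

variable {p : ℝ} {V : Type} [AddCommGroup V] [Module ℝ V] {N : V → ℝ}

theorem PS.zero (hp : 0 < p) (h : PS p N) : N 0 = 0 := by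
  have h1 := h.smul 0 0
  rw [zero_smul, abs_zero, Real.zero_rpow hp.ne', zero_mul] at h1
  exact h1

theorem PS.neg (h : PS p N) (v : V) : N (-v) = N v := by
  have h1 := h.smul (-1) v
  rw [neg_one_smul, abs_neg, abs_one, Real.one_rpow, one_mul] at h1
  exact h1

/-- The carrier of the seminormed space. -/
def Car (_hp : 0 < p) (_h : PS p N) : Type := V

variable (hp : 0 < p) (h : PS p N)

instance : AddCommGroup (Car hp h) := inferInstanceAs (AddCommGroup V)

instance : Module ℝ (Car hp h) := inferInstanceAs (Module ℝ V)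

/-- The seminorm. -/
def semin : AddGroupSeminorm (Car hp h) where
  toFun := N
  map_zero' := h.zero hp
  add_le' := h.add_le
  neg' v := h.neg v

instance : SeminormedAddCommGroup (Car hp h) :=
  AddGroupSeminorm.toSeminormedAddCommGroup (semin hp h)

/-- The identity. -/
def toCar : V →ₗ[ℝ] Car hp h where
  toFun v := v
  map_add' _ _ := rfl
  map_smul' _ _ := rfl

/-- The identity. -/
def ofCar : Car hp h →ₗ[ℝ] V where
  toFun v := v
  map_add' _ _ := rfl
  map_smul' _ _ := rfl

theorem norm_toCar (v : V) : ‖toCar hp h v‖ = N v := rfl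

theorem norm_Car (v : Car hp h) : ‖v‖ = N (ofCar hp h v) := rfl

theorem toCar_ofCar (v : Car hp h) : toCar hp h (ofCar hp h v) = v := rfl

theorem norm_smul_Car (t : ℝ) (v : Car hp h) : ‖t • v‖ = |t| ^ p * ‖v‖ := h.smul t v

instance : UniformContinuousConstSMul ℝ (Car hp h) where
  uniformContinuous_const_smul t := by
    have hl : LipschitzWith (Real.toNNReal (|t| ^ p)) (fun v : Car hp h => t • v) := by
      apply LipschitzWith.of_dist_le_mul
      intro x y
      rw [dist_eq_norm, dist_eq_norm, ← smul_sub, norm_smul_Car,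
        Real.coe_toNNReal _ (by positivity)]
    exact hl.uniformContinuous

/-- The completion. -/
abbrev Cpl : Type := UniformSpace.Completion (Car hp h)

theorem norm_smul_Cpl (t : ℝ) (x : Cpl hp h) : ‖t • x‖ = |t| ^ p * ‖x‖ := by
  induction x using UniformSpace.Completion.induction_on with
  | hp => exact isClosed_eq ((continuous_const_smul t).norm) (continuous_const.mul continuous_norm)
  | ih v =>
    rw [← UniformSpace.Completion.coe_smul, UniformSpace.Completion.norm_coe,
      UniformSpace.Completion.norm_coe, norm_smul_Car]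

/-- The canonical map to the completion. -/
noncomputable def cC : V →ₗ[ℝ] Cpl hp h where
  toFun v := ((toCar hp h v : Car hp h) : Cpl hp h)
  map_add' v w := by
    rw [map_add]
    exact UniformSpace.Completion.coe_add _ _
  map_smul' t v := by
    rw [map_smul]
    exact UniformSpace.Completion.coe_smul _ _

theorem norm_cC (v : V) : ‖cC hp h v‖ = N v := by
  change ‖((toCar hp h v : Car hp h) : Cpl hp h)‖ = N v
  rw [UniformSpace.Completion.norm_coe, norm_toCar]

theorem coe_eq_cC (v : Car hp h) : (v : Cpl hp h) = cC hp h (ofCar hp h v) := rfl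

theorem denseRange_cC : DenseRange (cC hp h) := by
  have h1 : DenseRange ((↑) : Car hp h → Cpl hp h) := UniformSpace.Completion.denseRange_coe
  exact h1

/-- Equality of continuous maps can be checked on the dense subspace. -/
theorem eq_of_cC {Z : Type} [TopologicalSpace Z] [T2Space Z] {f g : Cpl hp h → Z}
    (hf : Continuous f) (hg : Continuous g) (hfg : ∀ v, f (cC hp h v) = g (cC hp h v)) :
    f = g :=
  (denseRange_cC hp h).equalizer hf hg (funext hfg)

/-- Extension of Lipschitz maps. -/
theorem exists_lip_ext {Z : Type} [NormedAddCommGroup Z] [CompleteSpace Z] (f : V → Z) {L : ℝ}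
    (hL : 0 ≤ L) (hf : ∀ v w, ‖f v - f w‖ ≤ L * N (v - w)) :
    ∃ g : Cpl hp h → Z, (∀ v, g (cC hp h v) = f v) ∧ ∀ x y, ‖g x - g y‖ ≤ L * ‖x - y‖ := by
  let f' : Car hp h → Z := fun v => f (ofCar hp h v)
  have huc : UniformContinuous f' := by
    have hl : LipschitzWith (Real.toNNReal L) f' := by
      apply LipschitzWith.of_dist_le_mul
      intro x y
      rw [dist_eq_norm, dist_eq_norm, Real.coe_toNNReal _ hL, norm_Car, map_sub]
      exact hf _ _
    exact hl.uniformContinuous
  let g : Cpl hp h → Z := UniformSpace.Completion.extension f'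
  have hg : Continuous g := UniformSpace.Completion.continuous_extension
  have hgf : ∀ v : Car hp h, g (v : Cpl hp h) = f' v :=
    fun v => UniformSpace.Completion.extension_coe huc v
  refine ⟨g, fun v => hgf (toCar hp h v), ?_⟩
  intro x y
  induction x, y using UniformSpace.Completion.induction_on₂ with
  | hp =>
    exact isClosed_le ((hg.comp continuous_fst).sub (hg.comp continuous_snd)).norm
      (continuous_const.mul (continuous_fst.sub continuous_snd).norm)
  | ih v w =>
    rw [hgf, hgf, ← UniformSpace.Completion.coe_sub, UniformSpace.Completion.norm_coe, norm_Car,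
      map_sub]
    exact hf _ _

/-- Extension of bounded linear maps. -/
theorem exists_lin_ext {Z : Type} [NormedAddCommGroup Z] [Module ℝ Z] [CompleteSpace Z]
    (hZ : ∀ (t : ℝ) (z : Z), ‖t • z‖ = |t| ^ p * ‖z‖) (T : V →ₗ[ℝ] Z) {L : ℝ} (hL : 0 ≤ L)
    (hT : ∀ v, ‖T v‖ ≤ L * N v) :
    ∃ T' : Cpl hp h →ₗ[ℝ] Z, (∀ v, T' (cC hp h v) = T v) ∧ ∀ x, ‖T' x‖ ≤ L * ‖x‖ := by
  have hcont : ∀ t : ℝ, Continuous fun z : Z => t • z := by
    intro t
    have hl : LipschitzWith (Real.toNNReal (|t| ^ p)) (fun v : Z => t • v) := by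
      apply LipschitzWith.of_dist_le_mul
      intro x y
      rw [dist_eq_norm, dist_eq_norm, ← smul_sub, hZ, Real.coe_toNNReal _ (by positivity)]
    exact hl.continuous
  obtain ⟨g, hg1, hg2⟩ := exists_lip_ext hp h (fun v => T v) hL (fun v w => by
    rw [← map_sub]
    exact hT _)
  have hg : Continuous g := by
    have hl : LipschitzWith (Real.toNNReal L) g := by
      apply LipschitzWith.of_dist_le_mul
      intro x y
      rw [dist_eq_norm, dist_eq_norm, Real.coe_toNNReal _ hL]
      exact hg2 x y
    exact hl.continuous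
  have hg0 : g 0 = 0 := by
    have h1 := hg1 0
    rwa [map_zero, map_zero] at h1
  refine ⟨⟨⟨g, ?_⟩, ?_⟩, hg1, ?_⟩
  · intro x y
    induction x, y using UniformSpace.Completion.induction_on₂ with
    | hp =>
      exact isClosed_eq (hg.comp (continuous_fst.add continuous_snd))
        ((hg.comp continuous_fst).add (hg.comp continuous_snd))
    | ih v w =>
      rw [coe_eq_cC, coe_eq_cC, ← map_add, hg1, hg1, hg1, map_add]
  · intro t x
    simp only [RingHom.id_apply]
    induction x using UniformSpace.Completion.induction_on with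
    | hp =>
      exact isClosed_eq (hg.comp (continuous_const_smul t)) ((hcont t).comp hg)
    | ih v =>
      change g (t • (v : Cpl hp h)) = t • g v
      rw [coe_eq_cC, ← map_smul, hg1, hg1, map_smul]
  · intro x
    change ‖g x‖ ≤ L * ‖x‖
    have h1 := hg2 x 0
    rwa [hg0, sub_zero, sub_zero] at h1

/-- Bounded linear maps are continuous. -/
theorem continuous_of_bound {Z Z' : Type} [NormedAddCommGroup Z] [Module ℝ Z]
    [NormedAddCommGroup Z'] [Module ℝ Z'] (T : Z →ₗ[ℝ] Z') {L : ℝ}
    (hT : ∀ v, ‖T v‖ ≤ L * ‖v‖) : Continuous T := by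
  have hl : LipschitzWith (Real.toNNReal L) T := by
    apply LipschitzWith.of_dist_le_mul
    intro x y
    rw [dist_eq_norm, dist_eq_norm, ← map_sub]
    exact (hT _).trans (mul_le_mul_of_nonneg_right (Real.le_coe_toNNReal L) (norm_nonneg _))
  exact hl.continuous

end

end Q97.FP2
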