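import Mathlib

set_option autoImplicit false
set_option linter.unusedSectionVars false

/-!
# Spaces with cut operators: real Lipschitz functions are constant, and Lipschitz maps into a
quotient by a line can be lifted
-/

namespace Q97.FP2

open Filter Topology Finset

/-- Cut operators on a seminormed group: `E n i` is thought of as the restriction to the first
`i` of `n` equal pieces. -/
structure CutSpace {V : Type} [SeminormedAddCommGroup V] [Module ℝ V]
    (E : ℕ → ℕ → V →ₗ[ℝ] V) : Prop where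
  zero : ∀ n, E n 0 = 0
  one : ∀ n, 0 < n → E n n = LinearMap.id
  sum_le : ∀ n v, 0 < n → ∑ i ∈ range n, ‖E n (i + 1) v - E n i v‖ ≤ ‖v‖
  sub_le : ∀ n i v, ‖v - E n i v‖ ≤ ‖v‖
  small : ∀ v, ∃ C, 0 ≤ C ∧ ∀ n, 0 < n → ∀ i < n, ∀ j ≤ n,
    ‖E n (i + 1) (E n j v) - E n i (E n j v)‖ ≤ C / n

section

variable {V : Type} [SeminormedAddCommGroup V] [Module ℝ V] {E : ℕ → ℕ → V →ₗ[ℝ] V}

/-- The path from `x` to `y`. -/
def R (E : ℕ → ℕ → V →ₗ[ℝ] V) (n : ℕ) (x y : V) (j : ℕ) : V := E n j y + (x - E n j x)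

theorem R_zero (hE : CutSpace E) (n : ℕ) (x y : V) : R E n x y 0 = x := by
  simp [R, hE.zero]

theorem R_one (hE : CutSpace E) {n : ℕ} (hn : 0 < n) (x y : V) : R E n x y n = y := by
  simp [R, hE.one n hn]

theorem R_sub (n : ℕ) (x y : V) (j : ℕ) :
    R E n x y (j + 1) - R E n x y j = E n (j + 1) (y - x) - E n j (y - x) := by
  simp only [R, map_sub]
  abel

/-- The grid of a triangle. -/
def P (E : ℕ → ℕ → V →ₗ[ℝ] V) (n : ℕ) (x y z : V) (i j : ℕ) : V :=
  E n i z + (R E n x y j - E n i (R E n x y j))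

theorem P_zero_left (hE : CutSpace E) (n : ℕ) (x y z : V) (j : ℕ) :
    P E n x y z 0 j = R E n x y j := by
  simp [P, hE.zero]

theorem P_top (hE : CutSpace E) {n : ℕ} (hn : 0 < n) (x y z : V) (j : ℕ) :
    P E n x y z n j = z := by
  simp [P, hE.one n hn]

theorem P_right (hE : CutSpace E) {n : ℕ} (hn : 0 < n) (x y z : V) (i : ℕ) :
    P E n x y z i n = R E n y z i := by
  unfold P
  rw [R_one hE hn]
  rfl

theorem P_left (hE : CutSpace E) (n : ℕ) (x y z : V) (i : ℕ) :
    P E n x y z i 0 = R E n x z i := by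
  unfold P
  rw [R_zero hE]
  rfl

theorem P_sub_right (hE : CutSpace E) (n : ℕ) (x y z : V) (i j : ℕ) :
    ‖P E n x y z i (j + 1) - P E n x y z i j‖ ≤ ‖E n (j + 1) (y - x) - E n j (y - x)‖ := by
  have h : P E n x y z i (j + 1) - P E n x y z i j =
      (R E n x y (j + 1) - R E n x y j) - E n i (R E n x y (j + 1) - R E n x y j) := by
    unfold P
    rw [map_sub]
    abel
  rw [h, R_sub]
  exact hE.sub_le _ _ _

theorem P_sub_up (n : ℕ) (x y z : V) (i j : ℕ) :
    P E n x y z (i + 1) j - P E n x y z i j =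
      (E n (i + 1) (z - x) - E n i (z - x)) -
        (E n (i + 1) (E n j (y - x)) - E n i (E n j (y - x))) := by
  unfold P R
  simp only [map_sub, map_add]
  abel

theorem small_bounds (hE : CutSpace E) (x y z : V) :
    ∃ C, 0 ≤ C ∧ ∀ n, 0 < n → ∀ i < n, ∀ j ≤ n,
      ‖P E n x y z (i + 1) j - P E n x y z i j‖ ≤ C / n ∧
      ‖P E n x y z j (i + 1) - P E n x y z j i‖ ≤ C / n ∧
      ‖R E n x y (i + 1) - R E n x y i‖ ≤ C / n := by
  obtain ⟨C1, hC1, h1⟩ := hE.small (z - x)
  obtain ⟨C2, hC2, h2⟩ := hE.small (y - x)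
  refine ⟨C1 + C2, by positivity, fun n hn i hi j hj => ?_⟩
  have hn' : (0 : ℝ) < n := by exact_mod_cast hn
  have h1' := h1 n hn i hi n le_rfl
  have h2' := h2 n hn i hi n le_rfl
  rw [hE.one n hn] at h1' h2'
  simp only [LinearMap.id_apply] at h1' h2'
  have hle : C2 / n ≤ (C1 + C2) / n := by
    apply div_le_div_of_nonneg_right _ hn'.le
    linarith
  refine ⟨?_, ?_, ?_⟩
  · rw [P_sub_up]
    refine (norm_sub_le _ _).trans ?_
    rw [add_div]
    exact add_le_add h1' (h2 n hn i hi j hj)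
  · exact ((P_sub_right hE n x y z j i).trans h2').trans hle
  · rw [R_sub]
    exact h2'.trans hle

end

/-- `n ^ k * (C / n) ^ (1 / p) → 0` if `k < 1 / p`. -/
theorem tendsto_aux {p : ℝ} (hp : 0 < p) (k : ℕ) (hk : (k : ℝ) * p < 1) (C : ℝ) (hC : 0 ≤ C) :
    Tendsto (fun n : ℕ => (n : ℝ) ^ k * (C / n) ^ (1 / p)) atTop (𝓝 0) := by
  have h1 : Tendsto (fun n : ℕ => C ^ (1 / p) * ((n : ℝ)) ^ (-(1 / p - k))) atTop (𝓝 0) := by
    have h2 : 0 < 1 / p - k := by
      rw [sub_pos, lt_div_iff₀ hp]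
      exact hk
    have h3 := (tendsto_rpow_neg_atTop h2).comp tendsto_natCast_atTop_atTop
    have h4 := h3.const_mul (C ^ (1 / p))
    rw [mul_zero] at h4
    exact h4
  refine h1.congr' ?_
  filter_upwards [eventually_gt_atTop 0] with n hn
  have hn' : (0 : ℝ) < n := by exact_mod_cast hn
  rw [Real.div_rpow hC hn'.le, neg_sub, Real.rpow_sub hn', Real.rpow_natCast]
  ring

section

variable {V : Type} [SeminormedAddCommGroup V] [Module ℝ V] {E : ℕ → ℕ → V →ₗ[ℝ] V}

/-- Real Lipschitz functions are constant. -/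
theorem real_const (hE : CutSpace E) {p : ℝ} (hp : 0 < p) (hp1 : p < 1) (m : V → ℝ) {L : ℝ}
    (hL : 0 ≤ L) (hm : ∀ x y, |m x - m y| ^ p ≤ L * ‖x - y‖) (x y : V) : m x = m y := by
  obtain ⟨C, hC, hb⟩ := small_bounds hE x y x
  have hlim := tendsto_aux hp 1 (by simpa using hp1) (L * C) (by positivity)
  have hle : ∀ᶠ n : ℕ in atTop, |m y - m x| ≤ (n : ℝ) ^ 1 * (L * C / n) ^ (1 / p) := by
    filter_upwards [eventually_gt_atTop 0] with n hn
    have hn' : (0 : ℝ) < n := by exact_mod_cast hn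
    have h1 : m y - m x = ∑ j ∈ range n, (m (R E n x y (j + 1)) - m (R E n x y j)) := by
      rw [Finset.sum_range_sub (fun j => m (R E n x y j)), R_one hE hn, R_zero hE]
    rw [h1]
    refine (Finset.abs_sum_le_sum_abs _ _).trans ?_
    have h2 : ∀ j ∈ range n, |m (R E n x y (j + 1)) - m (R E n x y j)| ≤ (L * C / n) ^ (1 / p) := by
      intro j hj
      have h3 := hm (R E n x y (j + 1)) (R E n x y j)
      have h4 := (hb n hn j (Finset.mem_range.mp hj) 0 (Nat.zero_le _)).2.2
      have h5 : |m (R E n x y (j + 1)) - m (R E n x y j)| ^ p ≤ L * C / n := by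
        refine h3.trans ?_
        rw [mul_div_assoc]
        exact mul_le_mul_of_nonneg_left h4 hL
      have h6 := Real.rpow_le_rpow (by positivity) h5 (by positivity : 0 ≤ 1 / p)
      rwa [← Real.rpow_mul (abs_nonneg _), mul_one_div_cancel hp.ne', Real.rpow_one] at h6
    refine (Finset.sum_le_sum h2).trans ?_
    rw [Finset.sum_const, Finset.card_range, nsmul_eq_mul, pow_one]
  have h := ge_of_tendsto hlim hle
  have h7 : |m y - m x| = 0 := le_antisymm h (abs_nonneg _)
  have h8 := abs_eq_zero.mp h7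
  linarith

end

section Lift

variable {V : Type} [SeminormedAddCommGroup V] [Module ℝ V] {E : ℕ → ℕ → V →ₗ[ℝ] V}
variable {W : Type} [NormedAddCommGroup W] [Module ℝ W] [CompleteSpace W] {p : ℝ}

/-- Sum of a one-cochain along the path. -/
noncomputable def A (E : ℕ → ℕ → V →ₗ[ℝ] V) (a : V → V → W) (n : ℕ) (x y : V) : W :=
  ∑ j ∈ range n, a (R E n x y j) (R E n x y (j + 1))

theorem grid_sum (h v : ℕ → ℕ → W) (n : ℕ) :
    ∑ i ∈ range n, ∑ j ∈ range n, (h i j + v i (j + 1) - v i j - h (i + 1) j) =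
      ∑ j ∈ range n, h 0 j + ∑ i ∈ range n, v i n - ∑ i ∈ range n, v i 0 -
        ∑ j ∈ range n, h n j := by
  have h1 : ∀ i ∈ range n, ∑ j ∈ range n, (h i j + v i (j + 1) - v i j - h (i + 1) j) =
      (v i n - v i 0) - (∑ j ∈ range n, h (i + 1) j - ∑ j ∈ range n, h i j) := by
    intro i _
    rw [← Finset.sum_range_sub (fun j => v i j), ← Finset.sum_sub_distrib,
      ← Finset.sum_sub_distrib]
    apply Finset.sum_congr rfl
    intro j _
    abel
  rw [Finset.sum_congr rfl h1, Finset.sum_sub_distrib, Finset.sum_sub_distrib,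
    Finset.sum_range_sub (fun i => ∑ j ∈ range n, h i j)]
  abel

variable {e : W} [hS : IsClosed (Submodule.span ℝ {e} : Set W)]

theorem exists_cochain {g : V → W ⧸ Submodule.span ℝ {e}} {L : ℝ} (hL : 0 < L)
    (hg : ∀ x y, ‖g x - g y‖ ≤ L * ‖x - y‖) (x y : V) :
    ∃ w : W, (Submodule.Quotient.mk w : W ⧸ Submodule.span ℝ {e}) = g y - g x ∧
      ‖w‖ ≤ 2 * L * ‖y - x‖ := by
  rcases (norm_nonneg (y - x)).eq_or_lt with h | h
  · have h1 := hg y x
    rw [← h, mul_zero] at h1
    have h2 := norm_le_zero_iff.mp h1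
    refine ⟨0, ?_, ?_⟩
    · rw [h2, Submodule.Quotient.mk_zero]
    · rw [← h, norm_zero, mul_zero]
  · obtain ⟨w, hw1, hw2⟩ := Submodule.Quotient.norm_mk_lt (g y - g x) (mul_pos hL h)
    refine ⟨w, hw1, ?_⟩
    have h1 := hg y x
    linarith

/-- The defect of a cochain on triangles tends to `0`. -/
theorem defect_tendsto (hE : CutSpace E) (hp : 0 < p) (hp2 : 2 * p < 1)
    (hW : ∀ (t : ℝ) (w : W), ‖t • w‖ = |t| ^ p * ‖w‖) (he : 0 < ‖e‖)
    {g : V → W ⧸ Submodule.span ℝ {e}} {L : ℝ} (hL : 0 < L) (a : V → V → W)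
    (ha1 : ∀ x y, (Submodule.Quotient.mk (a x y) : W ⧸ Submodule.span ℝ {e}) = g y - g x)
    (ha2 : ∀ x y, ‖a x y‖ ≤ 2 * L * ‖y - x‖) (x y z : V) :
    Tendsto (fun n => A E a n x y + A E a n y z - A E a n x z) atTop (𝓝 0) := by
  have haz : ∀ z, a z z = 0 := by
    intro z
    have h := ha2 z z
    rw [sub_self, norm_zero, mul_zero] at h
    exact norm_le_zero_iff.mp h
  obtain ⟨C, hC, hb⟩ := small_bounds hE x y z
  have hlim := tendsto_aux hp 2 (by push_cast; exact hp2) (8 * L * C / ‖e‖) (by positivity)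
  have hlim2 : Tendsto (fun n : ℕ => ((n : ℝ) ^ 2 * (8 * L * C / ‖e‖ / n) ^ (1 / p)) ^ p * ‖e‖)
      atTop (𝓝 0) := by
    have h1 : Tendsto (fun t : ℝ => t ^ p) (𝓝 0) (𝓝 0) := by
      have h2 := (Real.continuousAt_rpow_const 0 p (Or.inr hp.le)).tendsto
      rwa [Real.zero_rpow hp.ne'] at h2
    have h3 := (h1.comp hlim).mul_const ‖e‖
    rw [zero_mul] at h3
    exact h3
  rw [tendsto_zero_iff_norm_tendsto_zero]
  refine squeeze_zero' (Eventually.of_forall fun n => norm_nonneg _) ?_ hlim2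
  filter_upwards [eventually_gt_atTop 0] with n hn
  have hn' : (0 : ℝ) < n := by exact_mod_cast hn
  set h : ℕ → ℕ → W := fun i j => a (P E n x y z i j) (P E n x y z i (j + 1)) with hh
  set v : ℕ → ℕ → W := fun i j => a (P E n x y z i j) (P E n x y z (i + 1) j) with hv
  have hsum := grid_sum h v n
  have e1 : ∑ j ∈ range n, h 0 j = A E a n x y := by
    unfold A
    apply Finset.sum_congr rfl
    intro j _
    rw [hh]
    simp only [P_zero_left hE]
  have e2 : ∑ i ∈ range n, v i n = A E a n y z := by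
    unfold A
    apply Finset.sum_congr rfl
    intro j _
    rw [hv]
    simp only [P_right hE hn]
  have e3 : ∑ i ∈ range n, v i 0 = A E a n x z := by
    unfold A
    apply Finset.sum_congr rfl
    intro j _
    rw [hv]
    simp only [P_left hE]
  have e4 : ∑ j ∈ range n, h n j = 0 := by
    apply Finset.sum_eq_zero
    intro j _
    rw [hh]
    simp only [P_top hE hn, haz]
  rw [e1, e2, e3, e4, sub_zero] at hsum
  rw [← hsum]
  -- the small squares
  have hsq : ∀ i j, ∃ c : ℝ, c • e = h i j + v i (j + 1) - v i j - h (i + 1) j := by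
    intro i j
    apply Submodule.mem_span_singleton.mp
    rw [← Submodule.Quotient.mk_eq_zero]
    rw [hh, hv]
    simp only [Submodule.Quotient.mk_add, Submodule.Quotient.mk_sub, ha1]
    abel
  choose c hc using hsq
  have hcb : ∀ i ∈ range n, ∀ j ∈ range n, |c i j| ≤ (8 * L * C / ‖e‖ / n) ^ (1 / p) := by
    intro i hi j hj
    rw [Finset.mem_range] at hi hj
    have b1 : ‖h i j‖ ≤ 2 * L * (C / n) := (ha2 _ _).trans
      (mul_le_mul_of_nonneg_left (hb n hn j hj i hi.le).2.1 (by positivity))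
    have b2 : ‖v i (j + 1)‖ ≤ 2 * L * (C / n) := (ha2 _ _).trans
      (mul_le_mul_of_nonneg_left (hb n hn i hi (j + 1) hj).1 (by positivity))
    have b3 : ‖v i j‖ ≤ 2 * L * (C / n) := (ha2 _ _).trans
      (mul_le_mul_of_nonneg_left (hb n hn i hi j hj.le).1 (by positivity))
    have b4 : ‖h (i + 1) j‖ ≤ 2 * L * (C / n) := (ha2 _ _).trans
      (mul_le_mul_of_nonneg_left (hb n hn j hj (i + 1) hi).2.1 (by positivity))
    have b5 : ‖h i j + v i (j + 1) - v i j - h (i + 1) j‖ ≤ 8 * L * C / n := by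
      have t1 := norm_sub_le (h i j + v i (j + 1) - v i j) (h (i + 1) j)
      have t2 := norm_sub_le (h i j + v i (j + 1)) (v i j)
      have t3 := norm_add_le (h i j) (v i (j + 1))
      have t4 : 8 * L * C / n = 2 * L * (C / n) + 2 * L * (C / n) + 2 * L * (C / n)
        + 2 * L * (C / n) := by ring
      rw [t4]
      linarith
    rw [← hc, hW, ← le_div_iff₀ he] at b5
    have b6 := Real.rpow_le_rpow (by positivity) b5 (by positivity : 0 ≤ 1 / p)
    rw [← Real.rpow_mul (abs_nonneg _), mul_one_div_cancel hp.ne', Real.rpow_one] at b6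
    refine b6.trans (le_of_eq ?_)
    congr 1
    field_simp
  have hsum2 : ∑ i ∈ range n, ∑ j ∈ range n, (h i j + v i (j + 1) - v i j - h (i + 1) j) =
      (∑ i ∈ range n, ∑ j ∈ range n, c i j) • e := by
    rw [Finset.sum_smul]
    apply Finset.sum_congr rfl
    intro i _
    rw [Finset.sum_smul]
    apply Finset.sum_congr rfl
    intro j _
    rw [hc]
  rw [hsum2, hW]
  apply mul_le_mul_of_nonneg_right _ he.le
  apply Real.rpow_le_rpow (abs_nonneg _) _ hp.le
  refine (Finset.abs_sum_le_sum_abs _ _).trans ?_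
  have h5 : ∀ i ∈ range n, |∑ j ∈ range n, c i j| ≤ n * (8 * L * C / ‖e‖ / n) ^ (1 / p) := by
    intro i hi
    refine (Finset.abs_sum_le_sum_abs _ _).trans ?_
    refine (Finset.sum_le_sum (hcb i hi)).trans ?_
    rw [Finset.sum_const, Finset.card_range, nsmul_eq_mul]
  refine (Finset.sum_le_sum h5).trans ?_
  rw [Finset.sum_const, Finset.card_range, nsmul_eq_mul]
  apply le_of_eq
  ring

/-- Lipschitz maps into the quotient by a line can be lifted. -/
theorem exists_lipschitz_lift (hE : CutSpace E) (hp : 0 < p) (hp2 : 2 * p < 1)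
    (hW : ∀ (t : ℝ) (w : W), ‖t • w‖ = |t| ^ p * ‖w‖) (he : 0 < ‖e‖)
    {g : V → W ⧸ Submodule.span ℝ {e}} {L : ℝ} (hL : 0 < L)
    (hg : ∀ x y, ‖g x - g y‖ ≤ L * ‖x - y‖) :
    ∃ G : V → W, (∀ x y, ‖G x - G y‖ ≤ 2 * L * ‖x - y‖) ∧
      ∀ x, (Submodule.Quotient.mk (G x) : W ⧸ Submodule.span ℝ {e}) = g x := by
  choose a ha1 ha2 using exists_cochain hL hg
  have hAmk : ∀ n, 0 < n → ∀ x y,
      (Submodule.Quotient.mk (A E a n x y) : W ⧸ Submodule.span ℝ {e}) = g y - g x := by
    intro n hn x y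
    have h1 : (Submodule.Quotient.mk (A E a n x y) : W ⧸ Submodule.span ℝ {e}) =
        ∑ j ∈ range n, (g (R E n x y (j + 1)) - g (R E n x y j)) := by
      unfold A
      rw [← Submodule.mkQ_apply, map_sum]
      apply Finset.sum_congr rfl
      intro j _
      rw [Submodule.mkQ_apply, ha1]
    rw [h1, Finset.sum_range_sub (fun j => g (R E n x y j)), R_one hE hn, R_zero hE]
  have hAn : ∀ n, 0 < n → ∀ x y, ‖A E a n x y‖ ≤ 2 * L * ‖y - x‖ := by
    intro n hn x y
    unfold A
    refine (norm_sum_le _ _).trans ?_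
    have h1 : ∀ j ∈ range n, ‖a (R E n x y j) (R E n x y (j + 1))‖ ≤
        2 * L * ‖E n (j + 1) (y - x) - E n j (y - x)‖ := by
      intro j _
      rw [← R_sub]
      exact ha2 _ _
    refine (Finset.sum_le_sum h1).trans ?_
    rw [← Finset.mul_sum]
    exact mul_le_mul_of_nonneg_left (hE.sum_le n _ hn) (by positivity)
  have hdef := defect_tendsto hE hp hp2 hW he hL a ha1 ha2
  -- coordinates
  obtain ⟨w0, hw0⟩ := Submodule.Quotient.mk_surjective _ (g 0)
  have hcoord : ∀ x n, ∃ c : ℝ, 0 < n → c • e = A E a n 0 x - a 0 x := by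
    intro x n
    rcases Nat.eq_zero_or_pos n with rfl | hn
    · exact ⟨0, fun h => absurd h (lt_irrefl _)⟩
    · have h1 : A E a n 0 x - a 0 x ∈ Submodule.span ℝ {e} := by
        rw [← Submodule.Quotient.mk_eq_zero, Submodule.Quotient.mk_sub, hAmk n hn, ha1, sub_self]
      obtain ⟨c, hc⟩ := Submodule.mem_span_singleton.mp h1
      exact ⟨c, fun _ => hc⟩
  choose c hc using hcoord
  have hcb : ∀ x, ∃ B : ℝ, ∀ n, 0 < n → |c x n| ≤ B := by
    intro x
    refine ⟨(4 * L * ‖x‖ / ‖e‖) ^ (1 / p), fun n hn => ?_⟩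
    have h1 : ‖c x n • e‖ ≤ 4 * L * ‖x‖ := by
      rw [hc x n hn]
      refine (norm_sub_le _ _).trans ?_
      have h2 := hAn n hn 0 x
      have h3 := ha2 0 x
      rw [sub_zero] at h2 h3
      linarith
    rw [hW, ← le_div_iff₀ he] at h1
    have h2 := Real.rpow_le_rpow (by positivity) h1 (by positivity : 0 ≤ 1 / p)
    rwa [← Real.rpow_mul (abs_nonneg _), mul_one_div_cancel hp.ne', Real.rpow_one] at h2
  -- ultrafilter limits
  let U : Ultrafilter ℕ := Filter.hyperfilter ℕ
  have hU : (U : Filter ℕ) ≤ atTop := by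
    rw [← Nat.cofinite_eq_atTop]
    exact Filter.hyperfilter_le_cofinite
  have hlimc : ∀ x, ∃ l : ℝ, Tendsto (c x) U (𝓝 l) := by
    intro x
    obtain ⟨B, hB⟩ := hcb x
    have h1 : (Ultrafilter.map (c x) U : Filter ℝ) ≤ 𝓟 (Set.Icc (-B) B) := by
      rw [le_principal_iff, Ultrafilter.coe_map, Filter.mem_map]
      have h2 : ∀ᶠ n in (U : Filter ℕ), 0 < n := hU (eventually_gt_atTop 0)
      filter_upwards [h2] with n hn
      exact abs_le.mp (hB n hn)
    obtain ⟨l, _, hl⟩ := isCompact_Icc.ultrafilter_le_nhds _ h1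
    exact ⟨l, hl⟩
  choose l hl using hlimc
  refine ⟨fun x => w0 + (a 0 x + l x • e), ?_, ?_⟩
  · intro x y
    -- norms of differences as limits
    have hT : ∀ x, Tendsto (fun n => a 0 x + c x n • e) U (𝓝 (a 0 x + l x • e)) := by
      intro x
      apply Tendsto.const_add
      rw [tendsto_iff_norm_sub_tendsto_zero]
      have h1 : ∀ n, ‖c x n • e - l x • e‖ = |c x n - l x| ^ p * ‖e‖ := by
        intro n
        rw [← sub_smul, hW]
      simp_rw [h1]
      have h2 : Tendsto (fun n => |c x n - l x|) U (𝓝 0) := by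
        have h3 := (hl x).sub_const (l x)
        rw [sub_self] at h3
        have h4 := h3.abs
        rwa [abs_zero] at h4
      have h5 : Tendsto (fun t : ℝ => t ^ p) (𝓝 0) (𝓝 0) := by
        have h6 := (Real.continuousAt_rpow_const 0 p (Or.inr hp.le)).tendsto
        rwa [Real.zero_rpow hp.ne'] at h6
      have h7 := (h5.comp h2).mul_const ‖e‖
      rwa [zero_mul] at h7
    have h1 := ((hT x).sub (hT y)).norm
    have h2 : (w0 + (a 0 x + l x • e)) - (w0 + (a 0 y + l y • e)) =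
        a 0 x + l x • e - (a 0 y + l y • e) := by abel
    change ‖(w0 + (a 0 x + l x • e)) - (w0 + (a 0 y + l y • e))‖ ≤ _
    rw [h2]
    have hD := ((hdef 0 y x).mono_left hU).norm
    rw [norm_zero] at hD
    have h3 : Tendsto (fun n => 2 * L * ‖x - y‖ + ‖A E a n 0 y + A E a n y x - A E a n 0 x‖) U
        (𝓝 (2 * L * ‖x - y‖)) := by
      have h4 := hD.const_add (2 * L * ‖x - y‖)
      rwa [add_zero] at h4
    refine le_of_tendsto_of_tendsto h1 h3 ?_
    have h4 : ∀ᶠ n in (U : Filter ℕ), 0 < n := hU (eventually_gt_atTop 0)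
    filter_upwards [h4] with n hn
    rw [hc x n hn, hc y n hn]
    have h5 : a 0 x + (A E a n 0 x - a 0 x) - (a 0 y + (A E a n 0 y - a 0 y)) =
        A E a n y x - (A E a n 0 y + A E a n y x - A E a n 0 x) := by abel
    rw [h5]
    refine (norm_sub_le _ _).trans ?_
    exact add_le_add (hAn n hn y x) le_rfl
  · intro x
    change (Submodule.Quotient.mk (w0 + (a 0 x + l x • e)) : W ⧸ Submodule.span ℝ {e}) = g x
    rw [Submodule.Quotient.mk_add, Submodule.Quotient.mk_add, hw0, ha1, Submodule.Quotient.mk_smul,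
      (Submodule.Quotient.mk_eq_zero _).mpr (Submodule.mem_span_singleton_self e), smul_zero]
    abel

end Lift

end Q97.FP2
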