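import Pool.Agent.Q97.FP2.Char
import Pool.Agent.Q97.FreeP.Defs

set_option autoImplicit false
set_option linter.unusedSectionVars false

/-!
# A character on the bounded operators of the free `p`-space of the quotient
-/

namespace Q97.FP2

open Filter Topology Finset Q97.FreeP

section Translate

variable {p : ℝ} {Z : Type} [NormedAddCommGroup Z] [Module ℝ Z]

theorem rpow_inv_rpow (hp : 0 < p) {a : ℝ} (ha : 0 ≤ a) : (a ^ (1 / p)) ^ p = a := by
  rw [← Real.rpow_mul ha, one_div_mul_cancel hp.ne', Real.rpow_one]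

theorem rpow_rpow_inv (hp : 0 < p) {a : ℝ} (ha : 0 ≤ a) : (a ^ p) ^ (1 / p) = a := by
  rw [← Real.rpow_mul ha, mul_one_div_cancel hp.ne', Real.rpow_one]

/-- A complete group with a `p`-homogeneous norm is a `p`-Banach space. -/
theorem isPBanach_of_normed [CompleteSpace Z] (hp : 0 < p)
    (hZ : ∀ (t : ℝ) (z : Z), ‖t • z‖ = |t| ^ p * ‖z‖) :
    IsPBanach p (fun z : Z => ‖z‖ ^ (1 / p)) where
  pnorm :=
    { nonneg := fun z => by positivity
      eq_zero := fun z h => by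
        rw [Real.rpow_eq_zero (norm_nonneg _) (by positivity)] at h
        exact norm_eq_zero.mp h
      smul := fun t z => by
        change ‖t • z‖ ^ (1 / p) = |t| * ‖z‖ ^ (1 / p)
        rw [hZ, Real.mul_rpow (by positivity) (norm_nonneg _), rpow_rpow_inv hp (abs_nonneg _)]
      add_le := fun x y => by
        change (‖x + y‖ ^ (1 / p)) ^ p ≤ (‖x‖ ^ (1 / p)) ^ p + (‖y‖ ^ (1 / p)) ^ p
        rw [rpow_inv_rpow hp (norm_nonneg _), rpow_inv_rpow hp (norm_nonneg _),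
          rpow_inv_rpow hp (norm_nonneg _)]
        exact norm_add_le x y }
  complete u hu := by
    have h1 : CauchySeq u := by
      rw [Metric.cauchySeq_iff]
      intro ε hε
      obtain ⟨n, hn⟩ := hu ε hε
      refine ⟨n, fun k hk l hl => ?_⟩
      rw [dist_eq_norm, ← rpow_inv_rpow hp (norm_nonneg _)]
      exact hn k hk l hl
    obtain ⟨x, hx⟩ := cauchySeq_tendsto_of_complete h1
    refine ⟨x, ?_⟩
    have h2 : ∀ k, (‖u k - x‖ ^ (1 / p)) ^ p = ‖u k - x‖ := fun k =>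
      rpow_inv_rpow hp (norm_nonneg _)
    simp_rw [h2]
    exact tendsto_iff_norm_sub_tendsto_zero.mp hx

end Translate

variable {p : ℝ} {Y : Type} [NormedAddCommGroup Y] [Module ℝ Y] {e : Y}
  [hS : IsClosed (Submodule.span ℝ {e} : Set Y)]

/-- The norm of the quotient is `p`-homogeneous. -/
theorem norm_smul_quot (h : Rigid p e) (t : ℝ) (x : Y ⧸ Submodule.span ℝ {e}) :
    ‖t • x‖ = |t| ^ p * ‖x‖ := by
  have hle : ∀ (t : ℝ) (x : Y ⧸ Submodule.span ℝ {e}), ‖t • x‖ ≤ |t| ^ p * ‖x‖ := by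
    intro t x
    apply le_of_forall_pos_le_add
    intro ε hε
    obtain ⟨w, hw1, hw2⟩ := Submodule.Quotient.norm_mk_lt x
      (div_pos hε (by positivity : 0 < |t| ^ p + 1))
    have h1 : ‖t • x‖ ≤ |t| ^ p * ‖w‖ := by
      rw [← hw1, ← Submodule.Quotient.mk_smul, ← h.smul]
      exact Submodule.Quotient.norm_mk_le _ _
    have h2 : |t| ^ p * ‖w‖ ≤ |t| ^ p * (‖x‖ + ε / (|t| ^ p + 1)) :=
      mul_le_mul_of_nonneg_left hw2.le (by positivity)
    have h3 : |t| ^ p * (ε / (|t| ^ p + 1)) ≤ ε := by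
      have h4 : 0 ≤ |t| ^ p := by positivity
      rw [mul_div_assoc', div_le_iff₀ (by positivity)]
      nlinarith
    rw [mul_add] at h2
    linarith
  apply le_antisymm (hle t x)
  by_cases ht : t = 0
  · rw [ht, abs_zero, Real.zero_rpow h.pos.ne', zero_mul]
    exact norm_nonneg _
  · have h1 := hle t⁻¹ (t • x)
    rw [smul_smul, inv_mul_cancel₀ ht, one_smul, abs_inv, Real.inv_rpow (abs_nonneg _)] at h1
    have h2 : 0 < |t| ^ p := Real.rpow_pos_of_pos (abs_pos.mpr ht) _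
    rwa [inv_mul_eq_div, le_div_iff₀ h2, mul_comm] at h1

variable {F : Type} [AddCommGroup F] [Module ℝ F] {Q : F → ℝ}
  {δ : Y ⧸ Submodule.span ℝ {e} → F}

/-- The `p`-norm of the quotient. -/
noncomputable def qq (p : ℝ) (x : Y ⧸ Submodule.span ℝ {e}) : ℝ := ‖x‖ ^ (1 / p)

/-- Bounded operators into a normed group. -/
def PB (p : ℝ) (Q : F → ℝ) {Z : Type} [SeminormedAddCommGroup Z] [Module ℝ Z]
    (T : F →ₗ[ℝ] Z) : Prop :=
  ∃ C, 0 ≤ C ∧ ∀ v, ‖T v‖ ≤ C * Q v ^ p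

/-- Bounded operators between `p`-normed spaces. -/
def BB {G : Type} [AddCommGroup G] [Module ℝ G] (Q : F → ℝ) (r : G → ℝ) (T : F →ₗ[ℝ] G) : Prop :=
  ∃ C, 0 ≤ C ∧ ∀ v, r (T v) ≤ C * Q v

theorem PB_iff (hp : 0 < p) (hQ : ∀ v, 0 ≤ Q v) {Z : Type} [SeminormedAddCommGroup Z]
    [Module ℝ Z] (T : F →ₗ[ℝ] Z) :
    PB p Q T ↔ ∃ C, 0 ≤ C ∧ ∀ v, ‖T v‖ ^ (1 / p) ≤ C * Q v := by
  constructor
  · rintro ⟨C, hC, hT⟩
    refine ⟨C ^ (1 / p), by positivity, fun v => ?_⟩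
    refine (Real.rpow_le_rpow (norm_nonneg _) (hT v) (by positivity)).trans ?_
    rw [Real.mul_rpow hC (Real.rpow_nonneg (hQ v) _), rpow_rpow_inv hp (hQ v)]
  · rintro ⟨C, hC, hT⟩
    refine ⟨C ^ p, by positivity, fun v => ?_⟩
    have h1 := Real.rpow_le_rpow (by positivity) (hT v) hp.le
    rwa [rpow_inv_rpow hp (norm_nonneg _), Real.mul_rpow hC (hQ v)] at h1

theorem PB_add {Z : Type} [SeminormedAddCommGroup Z] [Module ℝ Z] {T U : F →ₗ[ℝ] Z}
    (hT : PB p Q T) (hU : PB p Q U) : PB p Q (T + U) := by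
  obtain ⟨C, hC, h1⟩ := hT
  obtain ⟨D, hD, h2⟩ := hU
  refine ⟨C + D, by positivity, fun v => ?_⟩
  rw [LinearMap.add_apply, add_mul]
  exact (norm_add_le _ _).trans (add_le_add (h1 v) (h2 v))

theorem PB_smul {Z : Type} [SeminormedAddCommGroup Z] [Module ℝ Z]
    (hZ : ∀ (t : ℝ) (z : Z), ‖t • z‖ = |t| ^ p * ‖z‖) {T : F →ₗ[ℝ] Z}
    (hT : PB p Q T) (c : ℝ) : PB p Q (c • T) := by
  obtain ⟨C, hC, h1⟩ := hT
  refine ⟨|c| ^ p * C, by positivity, fun v => ?_⟩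
  rw [LinearMap.smul_apply, hZ, mul_assoc]
  exact mul_le_mul_of_nonneg_left (h1 v) (by positivity)

theorem PB_comp (hp : 0 < p) (hQ : ∀ v, 0 ≤ Q v) {Z : Type} [SeminormedAddCommGroup Z]
    [Module ℝ Z] {T : F →ₗ[ℝ] Z} (hT : PB p Q T) {U : F →ₗ[ℝ] F} (hU : BB Q Q U) :
    PB p Q (T.comp U) := by
  obtain ⟨C, hC, h1⟩ := hT
  obtain ⟨D, hD, h2⟩ := hU
  refine ⟨C * D ^ p, by positivity, fun v => ?_⟩
  rw [LinearMap.comp_apply, mul_assoc, ← Real.mul_rpow hD (hQ v)]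
  refine (h1 _).trans (mul_le_mul_of_nonneg_left ?_ hC)
  exact Real.rpow_le_rpow (hQ _) (h2 v) hp.le

section Good

variable [CompleteSpace Y] (h : Rigid p e)
  (hF : IsFreePSpace p (qq (e := e) p) Q δ)

include h hF

theorem Q_nonneg (v : F) : 0 ≤ Q v := hF.banach.pnorm.nonneg v

theorem Q_delta (x y : Y ⧸ Submodule.span ℝ {e}) : Q (δ x - δ y) ^ p ≤ ‖x - y‖ := by
  have h1 := Real.rpow_le_rpow (Q_nonneg h hF _) (hF.lip x y) h.pos.le
  rwa [qq, rpow_inv_rpow h.pos (norm_nonneg _)] at h1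

/-- The barycentre map. -/
theorem exists_beta : ∃ β : F →ₗ[ℝ] (Y ⧸ Submodule.span ℝ {e}), (∀ x, β (δ x) = x) ∧ PB p Q β := by
  obtain ⟨β, h1, h2⟩ := hF.linearisation (Y ⧸ Submodule.span ℝ {e}) (qq (e := e) p)
    (isPBanach_of_normed h.pos (norm_smul_quot h)) (fun x => x) rfl 1 zero_le_one
    (fun x y => by rw [one_mul])
  exact ⟨β, h1, (PB_iff h.pos (Q_nonneg h hF) β).mpr ⟨1, zero_le_one, h2⟩⟩

/-- Bounded operators into the quotient are determined by their values on `δ`. -/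
theorem eq_of_delta {Z : Type} [NormedAddCommGroup Z] [Module ℝ Z] [CompleteSpace Z]
    (hZ : ∀ (t : ℝ) (z : Z), ‖t • z‖ = |t| ^ p * ‖z‖) {T U : F →ₗ[ℝ] Z} (hT : PB p Q T)
    (hU : PB p Q U) (hTU : ∀ x, T (δ x) = U (δ x)) : T = U := by
  refine hF.unique Z (fun z => ‖z‖ ^ (1 / p)) (isPBanach_of_normed h.pos hZ) T U ?_ ?_ hTU
  · obtain ⟨C, _, hC⟩ := (PB_iff h.pos (Q_nonneg h hF) T).mp hT
    exact ⟨C, hC⟩
  · obtain ⟨C, _, hC⟩ := (PB_iff h.pos (Q_nonneg h hF) U).mp hU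
    exact ⟨C, hC⟩

theorem op_decomp {β : F →ₗ[ℝ] (Y ⧸ Submodule.span ℝ {e})} (hβ : ∀ x, β (δ x) = x)
    (hβ2 : PB p Q β) {T : F →ₗ[ℝ] (Y ⧸ Submodule.span ℝ {e})} (hT : PB p Q T) :
    ∃ (χ : ℝ) (K : F →ₗ[ℝ] Y), PB p Q K ∧
      ∀ v, T v = χ • β v + Submodule.Quotient.mk (K v) := by
  obtain ⟨C, hC, hT'⟩ := hT
  obtain ⟨χ, k, M, hM, hk0, hk1, hk2⟩ := decomp h (fun x => T (δ x)) (by
    change T (δ 0) = 0
    rw [hF.zero, map_zero]) hC (fun x y => by
      change ‖T (δ x) - T (δ y)‖ ≤ _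
      rw [← map_sub]
      exact (hT' _).trans (mul_le_mul_of_nonneg_left (Q_delta h hF x y) hC))
  obtain ⟨K, hK1, hK2⟩ := hF.linearisation Y (fun y => ‖y‖ ^ (1 / p))
    (isPBanach_of_normed h.pos h.smul) k hk0 (M ^ (1 / p)) (by positivity) (fun x y => by
      have h1 := Real.rpow_le_rpow (norm_nonneg _) (hk1 x y)
        (by have := h.pos; positivity : 0 ≤ 1 / p)
      rwa [Real.mul_rpow hM (norm_nonneg _)] at h1)
  have hKB : PB p Q K := (PB_iff h.pos (Q_nonneg h hF) K).mpr ⟨_, by positivity, hK2⟩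
  refine ⟨χ, K, hKB, ?_⟩
  have hmkK : PB p Q ((Submodule.mkQ (Submodule.span ℝ {e})).comp K) := by
    obtain ⟨D, hD, h2⟩ := hKB
    refine ⟨D, hD, fun v => ?_⟩
    rw [LinearMap.comp_apply, Submodule.mkQ_apply]
    exact (Submodule.Quotient.norm_mk_le _ _).trans (h2 v)
  have heq := eq_of_delta h hF (norm_smul_quot h) ⟨C, hC, hT'⟩
    (PB_add (PB_smul (norm_smul_quot h) hβ2 χ) hmkK) (fun x => by
      rw [LinearMap.add_apply, LinearMap.smul_apply, LinearMap.comp_apply, Submodule.mkQ_apply,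
        hβ, hK1]
      exact hk2 x)
  intro v
  have h1 := LinearMap.congr_fun heq v
  rw [LinearMap.add_apply, LinearMap.smul_apply, LinearMap.comp_apply, Submodule.mkQ_apply] at h1
  exact h1

end Good

/-- `χ` is the value of the character at `T`. -/
def Good (p : ℝ) (Q : F → ℝ) (β : F →ₗ[ℝ] (Y ⧸ Submodule.span ℝ {e})) (T : F →ₗ[ℝ] F)
    (χ : ℝ) : Prop :=
  ∃ K : F →ₗ[ℝ] Y, PB p Q K ∧ ∀ v, β (T v) = χ • β v + Submodule.Quotient.mk (K v)

section Good2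

variable [CompleteSpace Y] (h : Rigid p e)
  (hF : IsFreePSpace p (qq (e := e) p) Q δ)
  {β : F →ₗ[ℝ] (Y ⧸ Submodule.span ℝ {e})}

include h hF

theorem good_exists (hβ : ∀ x, β (δ x) = x) (hβ2 : PB p Q β) {T : F →ₗ[ℝ] F} (hT : BB Q Q T) :
    ∃ χ, Good p Q β T χ := by
  obtain ⟨χ, K, hK, h1⟩ := op_decomp h hF hβ hβ2 (PB_comp h.pos (Q_nonneg h hF) hβ2 hT)
  exact ⟨χ, K, hK, h1⟩

theorem good_unique (hβ : ∀ x, β (δ x) = x) {T : F →ₗ[ℝ] F} {χ χ' : ℝ}
    (h1 : Good p Q β T χ) (h2 : Good p Q β T χ') : χ = χ' := by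
  obtain ⟨K, hK, h1⟩ := h1
  obtain ⟨K', hK', h2⟩ := h2
  have hKK : PB p Q (K + (-1 : ℝ) • K') := PB_add hK (PB_smul h.smul hK' (-1))
  obtain ⟨C, hC, hb⟩ := hKK
  have h3 := not_lift h (χ - χ') (fun x => (K + (-1 : ℝ) • K') (δ x)) hC (fun x y => by
      rw [← map_sub]
      exact (hb _).trans (mul_le_mul_of_nonneg_left (Q_delta h hF x y) hC)) (fun x => by
      have h4 := h1 (δ x)
      have h5 := h2 (δ x)
      rw [hβ] at h4 h5
      rw [LinearMap.add_apply, LinearMap.smul_apply, neg_one_smul, Submodule.Quotient.mk_add,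
        Submodule.Quotient.mk_neg, sub_smul]
      rw [h4] at h5
      have h6 : (Submodule.Quotient.mk (K (δ x)) : Y ⧸ Submodule.span ℝ {e}) =
          χ' • x + Submodule.Quotient.mk (K' (δ x)) - χ • x := by
        rw [← h5]; abel
      rw [h6]
      abel)
  linarith

theorem good_comp {T U : F →ₗ[ℝ] F} {χ χ' : ℝ} (hU' : BB Q Q U)
    (hT : Good p Q β T χ) (hU : Good p Q β U χ') : Good p Q β (T.comp U) (χ * χ') := by
  obtain ⟨K, hK, h1⟩ := hT
  obtain ⟨K', hK', h2⟩ := hU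
  refine ⟨χ • K' + K.comp U, PB_add (PB_smul h.smul hK' χ) (PB_comp h.pos (Q_nonneg h hF) hK hU'),
    fun v => ?_⟩
  rw [LinearMap.comp_apply, h1, h2, LinearMap.add_apply, LinearMap.smul_apply,
    LinearMap.comp_apply, Submodule.Quotient.mk_add, Submodule.Quotient.mk_smul, smul_add,
    smul_smul, add_assoc]

theorem good_add {T U : F →ₗ[ℝ] F} {χ χ' : ℝ} (hT : Good p Q β T χ) (hU : Good p Q β U χ') :
    Good p Q β (T + U) (χ + χ') := by
  obtain ⟨K, hK, h1⟩ := hT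
  obtain ⟨K', hK', h2⟩ := hU
  refine ⟨K + K', PB_add hK hK', fun v => ?_⟩
  rw [LinearMap.add_apply, map_add, h1, h2, LinearMap.add_apply, Submodule.Quotient.mk_add,
    add_smul]
  abel

theorem good_id : Good p Q β LinearMap.id 1 := by
  refine ⟨0, ⟨0, le_rfl, fun v => by simp⟩, fun v => ?_⟩
  rw [LinearMap.id_apply, one_smul, LinearMap.zero_apply, Submodule.Quotient.mk_zero, add_zero]

theorem good_zero : Good p Q β 0 0 := by
  refine ⟨0, ⟨0, le_rfl, fun v => by simp⟩, fun v => ?_⟩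
  rw [LinearMap.zero_apply, map_zero, zero_smul, LinearMap.zero_apply, Submodule.Quotient.mk_zero,
    add_zero]

/-- There is a unital multiplicative functional on the bounded operators of `F`. -/
theorem exists_character : ∃ ch : (F →ₗ[ℝ] F) → ℝ, ch LinearMap.id = 1 ∧ ch 0 = 0 ∧
    (∀ T U, BB Q Q T → BB Q Q U → ch (T.comp U) = ch T * ch U) ∧
    (∀ T U, BB Q Q T → BB Q Q U → ch (T + U) = ch T + ch U) := by
  obtain ⟨β, hβ, hβ2⟩ := exists_beta h hF
  have hex : ∀ T : F →ₗ[ℝ] F, ∃ χ, BB Q Q T → Good p Q β T χ := by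
    intro T
    by_cases hT : BB Q Q T
    · obtain ⟨χ, hχ⟩ := good_exists h hF hβ hβ2 hT
      exact ⟨χ, fun _ => hχ⟩
    · exact ⟨0, fun h => absurd h hT⟩
  choose ch hch using hex
  have hid : BB Q Q (LinearMap.id : F →ₗ[ℝ] F) := ⟨1, zero_le_one, fun v => by simp⟩
  have hzero : BB Q Q (0 : F →ₗ[ℝ] F) := by
    refine ⟨0, le_rfl, fun v => ?_⟩
    have h0 := hF.banach.pnorm.smul 0 0
    rw [zero_smul, abs_zero, zero_mul] at h0
    rw [LinearMap.zero_apply, h0, zero_mul]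
  have hcomp : ∀ T U : F →ₗ[ℝ] F, BB Q Q T → BB Q Q U → BB Q Q (T.comp U) := by
    rintro T U ⟨C, hC, h1⟩ ⟨D, hD, h2⟩
    refine ⟨C * D, by positivity, fun v => ?_⟩
    rw [LinearMap.comp_apply, mul_assoc]
    exact (h1 _).trans (mul_le_mul_of_nonneg_left (h2 v) hC)
  have hadd : ∀ T U : F →ₗ[ℝ] F, BB Q Q T → BB Q Q U → BB Q Q (T + U) := by
    rintro T U ⟨C, hC, h1⟩ ⟨D, hD, h2⟩
    refine ⟨(C ^ p + D ^ p) ^ (1 / p), by positivity, fun v => ?_⟩
    rw [LinearMap.add_apply]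
    have h3 := hF.banach.pnorm.add_le (T v) (U v)
    have h4 := Real.rpow_le_rpow (Q_nonneg h hF _) (h1 v) h.pos.le
    have h5 := Real.rpow_le_rpow (Q_nonneg h hF _) (h2 v) h.pos.le
    rw [Real.mul_rpow hC (Q_nonneg h hF v)] at h4
    rw [Real.mul_rpow hD (Q_nonneg h hF v)] at h5
    have h6 : Q (T v + U v) ^ p ≤ (C ^ p + D ^ p) * Q v ^ p := by linarith
    have h7 := Real.rpow_le_rpow (Real.rpow_nonneg (Q_nonneg h hF _) _) h6
      (by have := h.pos; positivity : 0 ≤ 1 / p)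
    rwa [rpow_rpow_inv h.pos (Q_nonneg h hF _), Real.mul_rpow (by positivity)
      (Real.rpow_nonneg (Q_nonneg h hF _) _), rpow_rpow_inv h.pos (Q_nonneg h hF _)] at h7
  refine ⟨ch, ?_, ?_, ?_, ?_⟩
  · exact good_unique h hF hβ (hch _ hid) (good_id h hF)
  · exact good_unique h hF hβ (hch _ hzero) (good_zero h hF)
  · intro T U hT hU
    exact good_unique h hF hβ (hch _ (hcomp T U hT hU)) (good_comp h hF hU (hch T hT) (hch U hU))
  · intro T U hT hU
    exact good_unique h hF hβ (hch _ (hadd T U hT hU)) (good_add h hF (hch T hT) (hch U hU))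

end Good2

end Q97.FP2
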