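import Pool.Agent.Q97.FP2.Compl
import Pool.Agent.Q97.FP2.Free

set_option autoImplicit false
set_option linter.unusedSectionVars false

/-!
# Existence of Lipschitz free `p`-spaces
-/

namespace Q97.FP2

open Filter Topology Q97.FreeP

/-- The `p`-th power of a `p`-norm as a group norm. -/
noncomputable def gnorm {p : ℝ} {Z : Type} [AddCommGroup Z] [Module ℝ Z] {r : Z → ℝ}
    (hp : 0 < p) (hr : IsPNorm p r) : AddGroupNorm Z where
  toFun y := r y ^ p
  map_zero' := by
    have h := hr.smul 0 0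
    rw [zero_smul, abs_zero, zero_mul] at h
    rw [h, Real.zero_rpow hp.ne']
  add_le' := hr.add_le
  neg' y := by
    have h := hr.smul (-1) y
    rw [neg_one_smul, abs_neg, abs_one, one_mul] at h
    rw [h]
  eq_zero_of_map_eq_zero' y h := by
    have h1 : r y ^ p = 0 := h
    rw [Real.rpow_eq_zero (hr.nonneg y) hp.ne'] at h1
    exact hr.eq_zero y h1

variable {p : ℝ} {X : Type} [AddCommGroup X] [Module ℝ X] {q : X → ℝ}

/-- Admissible seminorms on the free vector space over `X`. -/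
structure AdmF (p : ℝ) (q : X → ℝ) (N : (X →₀ ℝ) → ℝ) : Prop where
  ps : PS p N
  del : ∀ x y, N (Finsupp.single x 1 - Finsupp.single y 1) ≤ q (x - y) ^ p
  zero : N (Finsupp.single 0 1) = 0

theorem admF_zero (hq : ∀ x, 0 ≤ q x) : AdmF p q (fun _ => 0) where
  ps := ⟨fun _ => le_rfl, fun _ _ => by norm_num, fun _ _ => by norm_num⟩
  del x y := Real.rpow_nonneg (hq _) _
  zero := rfl

theorem bddF (hp : 0 < p) (v : X →₀ ℝ) : ∃ B, ∀ N, AdmF p q N → N v ≤ B := by
  induction v using Finsupp.induction_linear with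
  | zero => exact ⟨0, fun N hN => (hN.ps.zero hp).le⟩
  | add f g hf hg =>
    obtain ⟨A, hA⟩ := hf
    obtain ⟨B, hB⟩ := hg
    exact ⟨A + B, fun N hN => (hN.ps.add_le f g).trans (add_le_add (hA N hN) (hB N hN))⟩
  | single x c =>
    refine ⟨|c| ^ p * q (x - 0) ^ p, fun N hN => ?_⟩
    have h1 : Finsupp.single x c = c • (Finsupp.single x (1 : ℝ) : X →₀ ℝ) := by
      rw [Finsupp.smul_single, smul_eq_mul, mul_one]
    rw [h1, hN.ps.smul]
    apply mul_le_mul_of_nonneg_left _ (by positivity)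
    have h2 := hN.ps.add_le (Finsupp.single x 1 - Finsupp.single 0 1) (Finsupp.single 0 1)
    rw [sub_add_cancel, hN.zero, add_zero] at h2
    exact h2.trans (hN.del x 0)

/-- The largest admissible seminorm. -/
noncomputable def NmF (p : ℝ) (q : X → ℝ) (v : X →₀ ℝ) : ℝ :=
  ⨆ N : {N : (X →₀ ℝ) → ℝ // AdmF p q N}, N.1 v

theorem le_NmF (hp : 0 < p) {N : (X →₀ ℝ) → ℝ} (h : AdmF p q N) (v : X →₀ ℝ) :
    N v ≤ NmF p q v := by
  obtain ⟨B, hB⟩ := bddF (q := q) hp v
  exact le_ciSup (f := fun N : {N : (X →₀ ℝ) → ℝ // AdmF p q N} => N.1 v)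
    ⟨B, by rintro _ ⟨N, rfl⟩; exact hB N.1 N.2⟩ ⟨N, h⟩

theorem admF_NmF (hp : 0 < p) (hq : ∀ x, 0 ≤ q x) : AdmF p q (NmF p q) := by
  haveI : Nonempty {N : (X →₀ ℝ) → ℝ // AdmF p q N} := ⟨⟨_, admF_zero hq⟩⟩
  refine ⟨⟨fun v => le_NmF hp (admF_zero hq) v, fun v w => ?_, fun t v => ?_⟩, fun x y => ?_, ?_⟩
  · exact ciSup_le fun N => (N.2.ps.add_le v w).trans
      (add_le_add (le_NmF hp N.2 v) (le_NmF hp N.2 w))
  · unfold NmF
    rw [Real.mul_iSup_of_nonneg (by positivity)]
    congr 1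
    funext N
    exact N.2.ps.smul t v
  · exact ciSup_le fun N => N.2.del x y
  · unfold NmF
    have h1 : ∀ N : {N : (X →₀ ℝ) → ℝ // AdmF p q N}, N.1 (Finsupp.single 0 1) = 0 :=
      fun N => N.2.zero
    simp_rw [h1]
    exact ciSup_const

/-- Lipschitz free `p`-spaces exist. -/
theorem exists_free (hp : 0 < p) (hq : IsPNorm p q) :
    ∃ (F : Type) (_ : AddCommGroup F) (_ : Module ℝ F) (Q : F → ℝ) (δ : X → F),
      IsFreePSpace p q Q δ := by
  have hN := admF_NmF (q := q) hp hq.nonneg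
  let F := Cpl hp hN.ps
  let dl : X → (X →₀ ℝ) := fun x => Finsupp.single x 1
  refine ⟨F, inferInstance, inferInstance, fun v => ‖v‖ ^ (1 / p),
    fun x => cC hp hN.ps (dl x), ?_⟩
  refine ⟨isPBanach_of_normed hp (norm_smul_Cpl hp hN.ps), ?_, ?_, ?_, ?_⟩
  · have h1 : ‖cC hp hN.ps (dl 0)‖ = 0 := by
      rw [norm_cC]
      exact hN.zero
    exact norm_eq_zero.mp h1
  · intro x y
    change ‖cC hp hN.ps (dl x) - cC hp hN.ps (dl y)‖ ^ (1 / p) ≤ q (x - y)
    rw [← map_sub, norm_cC]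
    refine (Real.rpow_le_rpow (hN.ps.nonneg _) (hN.del x y) (by positivity)).trans ?_
    rw [rpow_rpow_inv hp (hq.nonneg _)]
  · intro Z iZ1 iZ2 r hr f h0 L hL hf
    let i : NormedAddCommGroup Z := (gnorm hp hr.pnorm).toNormedAddCommGroup
    have hnorm : ∀ z : Z, ‖z‖ = r z ^ p := fun z => rfl
    have hcomp : CompleteSpace Z := by
      apply Metric.complete_of_cauchySeq_tendsto
      intro u hu
      rw [Metric.cauchySeq_iff] at hu
      obtain ⟨x, hx⟩ := hr.complete u (fun ε hε => by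
        obtain ⟨n, hn⟩ := hu ε hε
        refine ⟨n, fun k hk l hl => ?_⟩
        have := hn k hk l hl
        rwa [dist_eq_norm] at this)
      exact ⟨x, tendsto_iff_norm_sub_tendsto_zero.mpr hx⟩
    have hZ : ∀ (t : ℝ) (z : Z), ‖t • z‖ = |t| ^ p * ‖z‖ := by
      intro t z
      rw [hnorm, hnorm, hr.pnorm.smul, Real.mul_rpow (abs_nonneg _) (hr.pnorm.nonneg z)]
    let T0 : (X →₀ ℝ) →ₗ[ℝ] Z := Finsupp.linearCombination ℝ f
    have hT0 : ∀ x, T0 (dl x) = f x := by
      intro x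
      change Finsupp.linearCombination ℝ f (Finsupp.single x 1) = f x
      rw [Finsupp.linearCombination_single, one_smul]
    rcases hL.eq_or_lt with rfl | hLpos
    · refine ⟨0, fun x => ?_, fun v => ?_⟩
      · have h1 := hf x 0
        rw [h0, sub_zero, sub_zero, zero_mul] at h1
        rw [LinearMap.zero_apply]
        exact (hr.pnorm.eq_zero _ (le_antisymm h1 (hr.pnorm.nonneg _))).symm
      · rw [LinearMap.zero_apply, zero_mul]
        have h1 := hr.pnorm.smul 0 0
        rw [zero_smul, abs_zero, zero_mul] at h1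
        exact h1.le
    have hLp : 0 < L ^ p := Real.rpow_pos_of_pos hLpos _
    have hadm : AdmF p q (fun v => ‖T0 v‖ / L ^ p) := by
      refine ⟨⟨fun v => by positivity, fun v w => ?_, fun t v => ?_⟩, fun x y => ?_, ?_⟩
      · change ‖T0 (v + w)‖ / L ^ p ≤ ‖T0 v‖ / L ^ p + ‖T0 w‖ / L ^ p
        rw [map_add, ← add_div]
        exact div_le_div_of_nonneg_right (norm_add_le _ _) hLp.le
      · change ‖T0 (t • v)‖ / L ^ p = |t| ^ p * (‖T0 v‖ / L ^ p)
        rw [map_smul, hZ, mul_div_assoc]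
      · change ‖T0 (dl x - dl y)‖ / L ^ p ≤ q (x - y) ^ p
        rw [map_sub, hT0, hT0, div_le_iff₀ hLp, hnorm, mul_comm,
          ← Real.mul_rpow hL (hq.nonneg _)]
        exact Real.rpow_le_rpow (hr.pnorm.nonneg _) (hf x y) hp.le
      · change ‖T0 (dl 0)‖ / L ^ p = 0
        rw [hT0, h0, norm_zero, zero_div]
    obtain ⟨T, hT1, hT2⟩ := exists_lin_ext hp hN.ps hZ T0 hLp.le (fun v => by
      have h1 := le_NmF hp hadm v
      rw [div_le_iff₀ hLp, mul_comm] at h1
      exact h1)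
    refine ⟨T, fun x => by rw [hT1, hT0], fun v => ?_⟩
    have h1 := hT2 v
    rw [hnorm, ← rpow_inv_rpow hp (norm_nonneg v), ← Real.mul_rpow hL (by positivity)] at h1
    exact (Real.rpow_le_rpow_iff (hr.pnorm.nonneg _) (by positivity) hp).mp h1
  · intro Z iZ1 iZ2 r hr T₁ T₂ h1 h2 h
    let i : NormedAddCommGroup Z := (gnorm hp hr.pnorm).toNormedAddCommGroup
    have hnorm : ∀ z : Z, ‖z‖ = r z ^ p := fun z => rfl
    have hcont : ∀ T : F →ₗ[ℝ] Z, (∃ C, ∀ v, r (T v) ≤ C * ‖v‖ ^ (1 / p)) → Continuous T := by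
      rintro T ⟨C, hC⟩
      have hC' : ∀ v, r (T v) ≤ |C| * ‖v‖ ^ (1 / p) := fun v =>
        (hC v).trans (mul_le_mul_of_nonneg_right (le_abs_self C) (by positivity))
      apply continuous_of_bound T (L := |C| ^ p)
      intro v
      rw [hnorm]
      have h3 := Real.rpow_le_rpow (hr.pnorm.nonneg _) (hC' v) hp.le
      rwa [Real.mul_rpow (abs_nonneg _) (by positivity), rpow_inv_rpow hp (norm_nonneg _)] at h3
    have hfun : (T₁ : F → Z) = T₂ := by
      apply eq_of_cC hp hN.ps (hcont T₁ h1) (hcont T₂ h2)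
      intro v
      have h3 : T₁.comp (cC hp hN.ps) = T₂.comp (cC hp hN.ps) := by
        apply Finsupp.lhom_ext
        intro x c
        have h4 : Finsupp.single x c = c • (dl x) := by
          change Finsupp.single x c = c • (Finsupp.single x (1 : ℝ) : X →₀ ℝ)
          rw [Finsupp.smul_single, smul_eq_mul, mul_one]
        rw [h4, map_smul, map_smul, LinearMap.comp_apply, LinearMap.comp_apply, h x]
      exact LinearMap.congr_fun h3 v
    exact LinearMap.ext fun v => congrFun hfun v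

end Q97.FP2
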