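import Pool.Agent.Q97.FP2.Free

set_option autoImplicit false
set_option linter.unusedSectionVars false

/-!
# Spaces with a character on the operators are not isomorphic to squares
-/

namespace Q97.FP2

open Filter Topology Finset Q97.FreeP

/-- `T` is an isomorphism of the space `F` with the `p`-norm `Q` onto `ℓ_p(G)`, where `G` carries
the `p`-norm `r`: the values of `T` are exactly the sequences `u` in `G` with
`∑ r (u n) ^ p < ∞`, and `Q v ^ p` is equivalent to `∑ r (T v n) ^ p`. -/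
structure IsIsoLp (p : ℝ) {F G : Type} [AddCommGroup F] [Module ℝ F] [AddCommGroup G] [Module ℝ G]
    (Q : F → ℝ) (r : G → ℝ) (T : F →ₗ[ℝ] (ℕ → G)) : Prop where
  mem : ∀ v, Summable fun n => r (T v n) ^ p
  surj : ∀ u : ℕ → G, Summable (fun n => r (u n) ^ p) → ∃ v, T v = u
  bound : ∃ C, 0 < C ∧ ∀ v, ∑' n, r (T v n) ^ p ≤ C * Q v ^ p ∧
    Q v ^ p ≤ C * ∑' n, r (T v n) ^ p

/-- `T` is an isomorphism of the space `F` with the `p`-norm `Q` onto `G ⊕ G`, where `G` carries
the `p`-norm `r`. -/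
def IsIsoSq {F G : Type} [AddCommGroup F] [Module ℝ F] [AddCommGroup G] [Module ℝ G]
    (Q : F → ℝ) (r : G → ℝ) (T : F ≃ₗ[ℝ] G × G) : Prop :=
  ∃ C, 0 < C ∧ ∀ v, r (T v).1 ≤ C * Q v ∧ r (T v).2 ≤ C * Q v ∧ Q v ≤ C * (r (T v).1 + r (T v).2)

/-- The restriction of a sequence to the even or odd indices. -/
def resL (G : Type) [AddCommGroup G] [Module ℝ G] (b : ℕ) : (ℕ → G) →ₗ[ℝ] (ℕ → G) where
  toFun u n := u (2 * n + b)
  map_add' _ _ := rfl
  map_smul' _ _ := rfl

/-- The extension of a sequence by zero from the even or odd indices. -/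
def embL (G : Type) [AddCommGroup G] [Module ℝ G] (b : ℕ) : (ℕ → G) →ₗ[ℝ] (ℕ → G) where
  toFun u n := if n % 2 = b then u (n / 2) else 0
  map_add' u w := by
    funext n
    simp only [Pi.add_apply]
    split_ifs
    · rfl
    · rw [add_zero]
  map_smul' c u := by
    funext n
    simp only [Pi.smul_apply, RingHom.id_apply]
    split_ifs
    · rfl
    · rw [smul_zero]

section

variable {p : ℝ} {F G : Type} [AddCommGroup F] [Module ℝ F] [AddCommGroup G] [Module ℝ G]
  {Q : F → ℝ} {r : G → ℝ}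

theorem r_zero (hp : 0 < p) (hr : IsPNorm p r) : r 0 ^ p = 0 := by
  have h0 := hr.smul 0 0
  rw [zero_smul, abs_zero, zero_mul] at h0
  rw [h0, Real.zero_rpow hp.ne']

theorem inj_of_isIsoLp (hp : 0 < p) (hQ : IsPNorm p Q) (hr : IsPNorm p r)
    {T : F →ₗ[ℝ] (ℕ → G)} (hT : IsIsoLp p Q r T) {v w : F} (h : T v = T w) : v = w := by
  obtain ⟨C, hC, hb⟩ := hT.bound
  have h1 := (hb (v - w)).2
  have h2 : ∀ n, r (T (v - w) n) ^ p = 0 := by
    intro n
    rw [map_sub, h, sub_self]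
    exact r_zero hp hr
  simp_rw [h2] at h1
  rw [tsum_zero, mul_zero] at h1
  have h3 : Q (v - w) ^ p = 0 := le_antisymm h1 (Real.rpow_nonneg (hQ.nonneg _) _)
  rw [Real.rpow_eq_zero (hQ.nonneg _) hp.ne'] at h3
  exact sub_eq_zero.mp (hQ.eq_zero _ h3)

/-- Operators on `ℓ_p(G)` induce operators on `F`. -/
theorem exists_conj (hp : 0 < p) (hQ : IsPNorm p Q) (hr : IsPNorm p r)
    {T : F →ₗ[ℝ] (ℕ → G)} (hT : IsIsoLp p Q r T) (Θ : (ℕ → G) →ₗ[ℝ] (ℕ → G))
    (hΘ : ∀ u : ℕ → G, Summable (fun n => r (u n) ^ p) → Summable (fun n => r (Θ u n) ^ p) ∧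
      ∑' n, r (Θ u n) ^ p ≤ ∑' n, r (u n) ^ p) :
    ∃ S : F →ₗ[ℝ] F, BB Q Q S ∧ ∀ v, T (S v) = Θ (T v) := by
  have hex : ∀ v, ∃ w, T w = Θ (T v) := fun v => hT.surj _ (hΘ _ (hT.mem v)).1
  choose s hs using hex
  have hinj := fun {v w : F} => inj_of_isIsoLp hp hQ hr hT (v := v) (w := w)
  let S : F →ₗ[ℝ] F :=
    { toFun := s
      map_add' := fun v w => hinj (by rw [map_add, hs, hs, hs, map_add, map_add])
      map_smul' := fun c v => hinj (by
        rw [RingHom.id_apply, map_smul, hs, hs, map_smul, map_smul]) }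
  refine ⟨S, ?_, hs⟩
  obtain ⟨C, hC, hb⟩ := hT.bound
  refine ⟨(C * C) ^ (1 / p), by positivity, fun v => ?_⟩
  have h1 : Q (s v) ^ p ≤ C * C * Q v ^ p := by
    refine (hb _).2.trans ?_
    rw [mul_assoc]
    apply mul_le_mul_of_nonneg_left _ hC.le
    rw [hs]
    exact (hΘ _ (hT.mem v)).2.trans (hb v).1
  have h2 := Real.rpow_le_rpow (Real.rpow_nonneg (hQ.nonneg _) _) h1
    (by positivity : 0 ≤ 1 / p)
  rwa [rpow_rpow_inv hp (hQ.nonneg _), Real.mul_rpow (by positivity)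
    (Real.rpow_nonneg (hQ.nonneg _) _), rpow_rpow_inv hp (hQ.nonneg _)] at h2

theorem resL_bound (hr : IsPNorm p r) (b : ℕ) (u : ℕ → G)
    (hu : Summable (fun n => r (u n) ^ p)) :
    Summable (fun n => r (resL G b u n) ^ p) ∧
      ∑' n, r (resL G b u n) ^ p ≤ ∑' n, r (u n) ^ p := by
  have hinj : Function.Injective (fun n : ℕ => 2 * n + b) := by
    intro m n hmn
    have : 2 * m + b = 2 * n + b := hmn
    omega
  have h1 : Summable (fun n => r (resL G b u n) ^ p) := hu.comp_injective hinj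
  refine ⟨h1, ?_⟩
  exact Summable.tsum_le_tsum_of_inj (fun n : ℕ => 2 * n + b) hinj
    (fun c _ => Real.rpow_nonneg (hr.nonneg _) _) (fun n => le_rfl) h1 hu

theorem embL_bound (hp : 0 < p) (hr : IsPNorm p r) {b : ℕ} (hb : b < 2) (u : ℕ → G)
    (hu : Summable (fun n => r (u n) ^ p)) :
    Summable (fun n => r (embL G b u n) ^ p) ∧
      ∑' n, r (embL G b u n) ^ p ≤ ∑' n, r (u n) ^ p := by
  have hinj : Function.Injective (fun n : ℕ => 2 * n + b) := by
    intro m n hmn
    have : 2 * m + b = 2 * n + b := hmn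
    omega
  have hval : ∀ n, embL G b u (2 * n + b) = u n := by
    intro n
    change (if (2 * n + b) % 2 = b then u ((2 * n + b) / 2) else 0) = u n
    have h1 : (2 * n + b) % 2 = b := by omega
    have h2 : (2 * n + b) / 2 = n := by omega
    rw [if_pos h1, h2]
  have hz : ∀ x ∉ Set.range (fun n : ℕ => 2 * n + b), r (embL G b u x) ^ p = 0 := by
    intro x hx
    have h1 : embL G b u x = 0 := by
      change (if x % 2 = b then u (x / 2) else 0) = 0
      apply if_neg
      intro h2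
      apply hx
      exact ⟨x / 2, by change 2 * (x / 2) + b = x; omega⟩
    rw [h1]
    exact r_zero hp hr
  have h1 : (fun n => r (embL G b u n) ^ p) ∘ (fun n : ℕ => 2 * n + b) = fun n => r (u n) ^ p := by
    funext n
    simp only [Function.comp_apply]
    rw [hval]
  constructor
  · rw [← hinj.summable_iff hz, h1]
    exact hu
  · have h2 := hinj.tsum_eq (f := fun n => r (embL G b u n) ^ p) (by
      intro x hx
      by_contra h3
      exact hx (hz x h3))
    rw [← h2]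
    apply le_of_eq
    apply tsum_congr
    intro n
    rw [hval]

/-- A space whose operators admit a character is not isomorphic to any `ℓ_p(G)`. -/
theorem not_isIsoLp (hp : 0 < p) (hQ : IsPNorm p Q) (hr : IsPNorm p r)
    {ch : (F →ₗ[ℝ] F) → ℝ} (h1 : ch LinearMap.id = 1) (h0 : ch 0 = 0)
    (hmul : ∀ T U, BB Q Q T → BB Q Q U → ch (T.comp U) = ch T * ch U)
    (T : F →ₗ[ℝ] (ℕ → G)) : ¬ IsIsoLp p Q r T := by
  intro hT
  have hinj := fun {v w : F} => inj_of_isIsoLp hp hQ hr hT (v := v) (w := w)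
  obtain ⟨R0, hR0, hR0'⟩ := exists_conj hp hQ hr hT (resL G 0) (resL_bound hr 0)
  obtain ⟨R1, hR1, hR1'⟩ := exists_conj hp hQ hr hT (resL G 1) (resL_bound hr 1)
  obtain ⟨E0, hE0, hE0'⟩ := exists_conj hp hQ hr hT (embL G 0) (embL_bound hp hr (by norm_num))
  obtain ⟨E1, hE1, hE1'⟩ := exists_conj hp hQ hr hT (embL G 1) (embL_bound hp hr (by norm_num))
  have e00 : R0.comp E0 = LinearMap.id := by
    apply LinearMap.ext
    intro v
    apply hinj
    rw [LinearMap.comp_apply, LinearMap.id_apply, hR0', hE0']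
    funext n
    change (if (2 * n + 0) % 2 = 0 then T v ((2 * n + 0) / 2) else 0) = T v n
    have a1 : (2 * n + 0) % 2 = 0 := by omega
    have a2 : (2 * n + 0) / 2 = n := by omega
    rw [if_pos a1, a2]
  have e11 : R1.comp E1 = LinearMap.id := by
    apply LinearMap.ext
    intro v
    apply hinj
    rw [LinearMap.comp_apply, LinearMap.id_apply, hR1', hE1']
    funext n
    change (if (2 * n + 1) % 2 = 1 then T v ((2 * n + 1) / 2) else 0) = T v n
    have a1 : (2 * n + 1) % 2 = 1 := by omega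
    have a2 : (2 * n + 1) / 2 = n := by omega
    rw [if_pos a1, a2]
  have e01 : R0.comp E1 = 0 := by
    apply LinearMap.ext
    intro v
    apply hinj
    rw [LinearMap.comp_apply, LinearMap.zero_apply, hR0', hE1', map_zero]
    funext n
    change (if (2 * n + 0) % 2 = 1 then T v ((2 * n + 0) / 2) else 0) = (0 : ℕ → G) n
    have a1 : ¬ (2 * n + 0) % 2 = 1 := by omega
    rw [if_neg a1]
    rfl
  have c00 := hmul R0 E0 hR0 hE0
  have c11 := hmul R1 E1 hR1 hE1
  have c01 := hmul R0 E1 hR0 hE1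
  rw [e00, h1] at c00
  rw [e11, h1] at c11
  rw [e01, h0] at c01
  have h2 : ch R0 ≠ 0 := by
    intro h; rw [h, zero_mul] at c00; exact one_ne_zero c00
  have h3 : ch E1 ≠ 0 := by
    intro h; rw [h, mul_zero] at c11; exact one_ne_zero c11
  exact mul_ne_zero h2 h3 c01.symm

/-- Operators on `G ⊕ G` induce operators on `F`. -/
theorem bb_conj (hQ : IsPNorm p Q) (hr : IsPNorm p r) (T : F ≃ₗ[ℝ] G × G) (hT : IsIsoSq Q r T)
    (Θ : (G × G) →ₗ[ℝ] (G × G)) (hΘ : ∀ u, r (Θ u).1 ≤ r u.1 + r u.2 ∧ r (Θ u).2 ≤ r u.1 + r u.2) :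
    BB Q Q ((T.symm : (G × G) →ₗ[ℝ] F).comp (Θ.comp (T : F →ₗ[ℝ] G × G))) := by
  obtain ⟨C, hC, hb⟩ := hT
  refine ⟨C * (4 * C), by positivity, fun v => ?_⟩
  change Q (T.symm (Θ (T v))) ≤ _
  have h1 := (hb (T.symm (Θ (T v)))).2.2
  rw [LinearEquiv.apply_symm_apply] at h1
  refine h1.trans ?_
  rw [mul_assoc]
  apply mul_le_mul_of_nonneg_left _ hC.le
  have h2 := hΘ (T v)
  have h3 := hb v
  linarith [h2.1, h2.2, h3.1, h3.2.1]

/-- A space whose operators admit a character is not isomorphic to any `G ⊕ G`. -/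
theorem not_isIsoSq (hp : 0 < p) (hQ : IsPNorm p Q) (hr : IsPNorm p r)
    {ch : (F →ₗ[ℝ] F) → ℝ} (h1 : ch LinearMap.id = 1) (h0 : ch 0 = 0)
    (hmul : ∀ T U, BB Q Q T → BB Q Q U → ch (T.comp U) = ch T * ch U)
    (hadd : ∀ T U, BB Q Q T → BB Q Q U → ch (T + U) = ch T + ch U)
    (T : F ≃ₗ[ℝ] G × G) : ¬ IsIsoSq Q r T := by
  intro hT
  have hr0 : r 0 = 0 := by
    have h0 := hr.smul 0 0
    rwa [zero_smul, abs_zero, zero_mul] at h0
  let conj : ((G × G) →ₗ[ℝ] (G × G)) → (F →ₗ[ℝ] F) := fun Θ =>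
    (T.symm : (G × G) →ₗ[ℝ] F).comp (Θ.comp (T : F →ₗ[ℝ] G × G))
  have hconj : ∀ Θ v, conj Θ v = T.symm (Θ (T v)) := fun _ _ => rfl
  have hcc : ∀ Θ Θ', (conj Θ).comp (conj Θ') = conj (Θ.comp Θ') := by
    intro Θ Θ'
    apply LinearMap.ext
    intro v
    rw [LinearMap.comp_apply, hconj, hconj, hconj, LinearEquiv.apply_symm_apply,
      LinearMap.comp_apply]
  let p1 : (G × G) →ₗ[ℝ] (G × G) := (LinearMap.inl ℝ G G).comp (LinearMap.fst ℝ G G)
  let p2 : (G × G) →ₗ[ℝ] (G × G) := (LinearMap.inr ℝ G G).comp (LinearMap.snd ℝ G G)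
  let sw : (G × G) →ₗ[ℝ] (G × G) := (LinearMap.snd ℝ G G).prod (LinearMap.fst ℝ G G)
  have b1 : BB Q Q (conj p1) := by
    refine bb_conj hQ hr T hT p1 (fun u => ⟨?_, ?_⟩)
    · change r u.1 ≤ _
      linarith [hr.nonneg u.2]
    · change r 0 ≤ _
      rw [hr0]
      linarith [hr.nonneg u.1, hr.nonneg u.2]
  have b2 : BB Q Q (conj p2) := by
    refine bb_conj hQ hr T hT p2 (fun u => ⟨?_, ?_⟩)
    · change r 0 ≤ _
      rw [hr0]
      linarith [hr.nonneg u.1, hr.nonneg u.2]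
    · change r u.2 ≤ _
      linarith [hr.nonneg u.1]
  have b3 : BB Q Q (conj sw) := by
    refine bb_conj hQ hr T hT sw (fun u => ⟨?_, ?_⟩)
    · change r u.2 ≤ _
      linarith [hr.nonneg u.1]
    · change r u.1 ≤ _
      linarith [hr.nonneg u.2]
  have e1 : (conj sw).comp (conj sw) = LinearMap.id := by
    rw [hcc]
    apply LinearMap.ext
    intro v
    rw [hconj, LinearMap.id_apply]
    exact T.symm_apply_apply v
  have e2 : (conj p1).comp (conj p2) = 0 := by
    rw [hcc]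
    apply LinearMap.ext
    intro v
    rw [hconj, LinearMap.zero_apply]
    have : (p1.comp p2) (T v) = 0 := rfl
    rw [this, map_zero]
  have e3 : (conj sw).comp (conj p1) = (conj p2).comp (conj sw) := by
    rw [hcc, hcc]
    rfl
  have e4 : conj p1 + conj p2 = LinearMap.id := by
    apply LinearMap.ext
    intro v
    rw [LinearMap.add_apply, hconj, hconj, LinearMap.id_apply, ← map_add]
    have : p1 (T v) + p2 (T v) = T v := by
      change ((T v).1, (0 : G)) + ((0 : G), (T v).2) = T v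
      rw [Prod.mk_add_mk, add_zero, zero_add]
    rw [this]
    exact T.symm_apply_apply v
  have c1 := hmul _ _ b3 b3
  have c2 := hmul _ _ b1 b2
  have c3 := hmul _ _ b3 b1
  have c4 := hmul _ _ b2 b3
  have c5 := hadd _ _ b1 b2
  rw [e1, h1] at c1
  rw [e2, h0] at c2
  rw [e3, c4] at c3
  rw [e4, h1] at c5
  have hs : ch (conj sw) ≠ 0 := by
    intro h; rw [h, zero_mul] at c1; exact one_ne_zero c1
  have c6 : ch (conj p2) = ch (conj p1) := by
    apply mul_right_cancel₀ hs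
    rw [c3, mul_comm]
  rw [c6] at c2 c5
  have c7 : ch (conj p1) = 0 := by
    have := c2.symm
    exact mul_self_eq_zero.mp this
  rw [c7, add_zero] at c5
  exact one_ne_zero c5

end

end Q97.FP2
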