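import Pool.Agent.Q97.FP2.Compl
import Pool.Agent.Q97.FP2.Char

set_option autoImplicit false
set_option linter.unusedSectionVars false

/-!
# The space `L_p[0,1]`, `0 < p < 1/2`
-/

namespace Q97.FP2

open Filter Topology MeasureTheory Set

section General

variable {p : ℝ} {V : Type} [AddCommGroup V] [Module ℝ V] {N : V → ℝ}
  (hp : 0 < p) (h : PS p N)

/-- Lines are closed. -/
theorem isClosed_line {W : Type} [NormedAddCommGroup W] [Module ℝ W] (hp : 0 < p)
    (hW : ∀ (t : ℝ) (w : W), ‖t • w‖ = |t| ^ p * ‖w‖) {e : W} (he : 0 < ‖e‖) :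
    IsClosed (Submodule.span ℝ {e} : Set W) := by
  apply IsSeqClosed.isClosed
  intro u w hu hw
  have hu' : ∀ n, ∃ c : ℝ, c • e = u n := fun n => Submodule.mem_span_singleton.mp (hu n)
  choose c hc using hu'
  have hcs : CauchySeq u := hw.cauchySeq
  have hcc : CauchySeq c := by
    rw [Metric.cauchySeq_iff] at hcs ⊢
    intro ε hε
    obtain ⟨n, hn⟩ := hcs (ε ^ p * ‖e‖) (mul_pos (Real.rpow_pos_of_pos hε _) he)
    refine ⟨n, fun k hk l hl => ?_⟩
    have h1 := hn k hk l hl
    rw [dist_eq_norm, ← hc, ← hc, ← sub_smul, hW] at h1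
    have h2 := lt_of_mul_lt_mul_right h1 he.le
    rw [Real.dist_eq]
    exact (Real.rpow_lt_rpow_iff (abs_nonneg _) hε.le hp).mp h2
  obtain ⟨l, hl⟩ := cauchySeq_tendsto_of_complete hcc
  have h3 : Tendsto u atTop (𝓝 (l • e)) := by
    rw [tendsto_iff_norm_sub_tendsto_zero]
    have h1 : ∀ n, ‖u n - l • e‖ = |c n - l| ^ p * ‖e‖ := by
      intro n
      rw [← hc, ← sub_smul, hW]
    simp_rw [h1]
    have h2 : Tendsto (fun n => |c n - l|) atTop (𝓝 0) := by
      have h3 := hl.sub_const l
      rw [sub_self] at h3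
      have h4 := h3.abs
      rwa [abs_zero] at h4
    have h5 : Tendsto (fun t : ℝ => t ^ p) (𝓝 0) (𝓝 0) := by
      have h6 := (Real.continuousAt_rpow_const 0 p (Or.inr hp.le)).tendsto
      rwa [Real.zero_rpow hp.ne'] at h6
    have h7 := (h5.comp h2).mul_const ‖e‖
    rwa [zero_mul] at h7
  have h4 := tendsto_nhds_unique hw h3
  rw [h4]
  exact Submodule.smul_mem _ _ (Submodule.mem_span_singleton_self e)

theorem rigid_of_cut (hp2 : 2 * p < 1) {E : ℕ → ℕ → Car hp h →ₗ[ℝ] Car hp h} (hE : CutSpace E)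
    {e0 : V} (he0 : 0 < N e0)
    [hcl : IsClosed (Submodule.span ℝ {cC hp h e0} : Set (Cpl hp h))] :
    Rigid p (cC hp h e0) where
  pos := hp
  smul := norm_smul_Cpl hp h
  e_pos := by rw [norm_cC]; exact he0
  realc := by
    intro m L hm x y
    have hm' : ∀ x y, |m x - m y| ^ p ≤ |L| * ‖x - y‖ := fun x y =>
      (hm x y).trans (mul_le_mul_of_nonneg_right (le_abs_self L) (norm_nonneg _))
    have hcont : Continuous m := by
      rw [continuous_iff_continuousAt]
      intro x
      have h1 : Tendsto (fun y => (|L| * ‖y - x‖) ^ (1 / p)) (𝓝 x) (𝓝 0) := by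
        have h2 : Tendsto (fun y => |L| * ‖y - x‖) (𝓝 x) (𝓝 0) := by
          have h3 : Continuous fun y => |L| * ‖y - x‖ :=
            continuous_const.mul (continuous_id.sub continuous_const).norm
          have h4 := h3.tendsto x
          rwa [sub_self, norm_zero, mul_zero] at h4
        have h5 : Tendsto (fun t : ℝ => t ^ (1 / p)) (𝓝 0) (𝓝 0) := by
          have h6 := (Real.continuousAt_rpow_const 0 (1 / p)
            (Or.inr (by positivity))).tendsto
          rwa [Real.zero_rpow (by positivity)] at h6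
        exact h5.comp h2
      rw [ContinuousAt, tendsto_iff_norm_sub_tendsto_zero]
      refine squeeze_zero (fun y => norm_nonneg _) (fun y => ?_) h1
      rw [Real.norm_eq_abs]
      have h2 := Real.rpow_le_rpow (by positivity) (hm' y x) (by positivity : 0 ≤ 1 / p)
      rwa [← Real.rpow_mul (abs_nonneg _), mul_one_div_cancel hp.ne', Real.rpow_one] at h2
    have hconst : m = fun _ => m (cC hp h 0) := by
      apply eq_of_cC hp h hcont continuous_const
      intro v
      have h1 := real_const hE hp (by linarith) (fun v : Car hp h => m (v : Cpl hp h))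
        (abs_nonneg L) (fun x y => by
          have h2 := hm' (x : Cpl hp h) (y : Cpl hp h)
          rwa [← UniformSpace.Completion.coe_sub, UniformSpace.Completion.norm_coe] at h2)
        (toCar hp h v) (toCar hp h 0)
      exact h1
    rw [hconst]
  lift := by
    intro g L hg
    have hL : 0 < |L| + 1 := by positivity
    have hg' : ∀ x y, ‖g x - g y‖ ≤ (|L| + 1) * ‖x - y‖ := fun x y =>
      (hg x y).trans (mul_le_mul_of_nonneg_right
        ((le_abs_self L).trans (by linarith)) (norm_nonneg _))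
    obtain ⟨G0, h1, h2⟩ := exists_lipschitz_lift (W := Cpl hp h) hE hp hp2 (norm_smul_Cpl hp h)
      (e := cC hp h e0) (by rw [norm_cC]; exact he0) (g := fun v : Car hp h => g (v : Cpl hp h))
      hL (fun x y => by
        have h3 := hg' (x : Cpl hp h) (y : Cpl hp h)
        rwa [← UniformSpace.Completion.coe_sub, UniformSpace.Completion.norm_coe] at h3)
    obtain ⟨G, h3, h4⟩ := exists_lip_ext hp h (fun v => G0 (toCar hp h v))
      (L := 2 * (|L| + 1)) (by positivity) (fun v w => by
        have h5 := h1 (toCar hp h v) (toCar hp h w)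
        rwa [← map_sub, norm_toCar] at h5)
    refine ⟨G, 2 * (|L| + 1), by positivity, h4, ?_⟩
    have hGc : Continuous G := by
      have hl : LipschitzWith (Real.toNNReal (2 * (|L| + 1))) G := by
        apply LipschitzWith.of_dist_le_mul
        intro x y
        rw [dist_eq_norm, dist_eq_norm, Real.coe_toNNReal _ (by positivity)]
        exact h4 x y
      exact hl.continuous
    have hmk : Continuous (fun x : Cpl hp h =>
        (Submodule.Quotient.mk x : Cpl hp h ⧸ Submodule.span ℝ {cC hp h e0})) := by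
      have hl : LipschitzWith 1 (fun x : Cpl hp h =>
          (Submodule.Quotient.mk x : Cpl hp h ⧸ Submodule.span ℝ {cC hp h e0})) := by
        apply LipschitzWith.of_dist_le_mul
        intro x y
        rw [dist_eq_norm, dist_eq_norm, NNReal.coe_one, one_mul]
        exact norm_mk_sub_le x y
      exact hl.continuous
    have hgc : Continuous g := by
      have hl : LipschitzWith (Real.toNNReal (|L| + 1)) g := by
        apply LipschitzWith.of_dist_le_mul
        intro x y
        rw [dist_eq_norm, dist_eq_norm, Real.coe_toNNReal _ hL.le]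
        exact hg' x y
      exact hl.continuous
    have hfun := eq_of_cC hp h (hmk.comp hGc) hgc (fun v => by
      change (Submodule.Quotient.mk (G (cC hp h v)) :
        Cpl hp h ⧸ Submodule.span ℝ {cC hp h e0}) = g (cC hp h v)
      rw [h3]
      exact h2 (toCar hp h v))
    intro x
    exact congrFun hfun x

end General

/-- Bounded measurable functions supported in `(0, 1]`. -/
def BV : Submodule ℝ (ℝ → ℝ) where
  carrier := {f | Measurable f ∧ (∃ C, ∀ t, |f t| ≤ C) ∧ ∀ t, t ∉ Ioc (0 : ℝ) 1 → f t = 0}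
  add_mem' := by
    rintro f g ⟨hf1, ⟨C, hC⟩, hf3⟩ ⟨hg1, ⟨D, hD⟩, hg3⟩
    refine ⟨hf1.add hg1, ⟨C + D, fun t => ?_⟩, fun t ht => ?_⟩
    · exact (abs_add_le _ _).trans (add_le_add (hC t) (hD t))
    · rw [Pi.add_apply, hf3 t ht, hg3 t ht, add_zero]
  zero_mem' := ⟨measurable_const, ⟨0, fun t => by simp⟩, fun t _ => rfl⟩
  smul_mem' := by
    rintro c f ⟨hf1, ⟨C, hC⟩, hf3⟩
    refine ⟨hf1.const_smul c, ⟨|c| * C, fun t => ?_⟩, fun t ht => ?_⟩
    · rw [Pi.smul_apply, smul_eq_mul, abs_mul]
      exact mul_le_mul_of_nonneg_left (hC t) (abs_nonneg c)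
    · rw [Pi.smul_apply, hf3 t ht, smul_zero]

/-- The `p`-homogeneous norm of `L_p[0,1]`. -/
noncomputable def NL (p : ℝ) (f : BV) : ℝ := ∫ t, |f.1 t| ^ p

theorem integrable_NL {p : ℝ} (hp : 0 < p) (f : BV) : Integrable (fun t => |f.1 t| ^ p) := by
  obtain ⟨hf1, ⟨C, hC⟩, hf3⟩ := f.2
  have hsupp : Function.support (fun t => |f.1 t| ^ p) ⊆ Ioc 0 1 := by
    intro t ht
    by_contra h
    apply ht
    change |f.1 t| ^ p = 0
    rw [hf3 t h, abs_zero, Real.zero_rpow hp.ne']
  rw [← integrableOn_iff_integrable_of_support_subset hsupp]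
  apply Measure.integrableOn_of_bounded (M := C ^ p)
  · rw [Real.volume_Ioc]; exact ENNReal.ofReal_ne_top
  · exact ((hf1.abs).pow_const p).aestronglyMeasurable
  · apply Eventually.of_forall
    intro t
    rw [Real.norm_eq_abs, abs_of_nonneg (by positivity)]
    exact Real.rpow_le_rpow (abs_nonneg _) (hC t) hp.le

theorem ps_NL {p : ℝ} (hp : 0 < p) (hp1 : p ≤ 1) : PS p (NL p) where
  nonneg f := integral_nonneg fun t => by positivity
  add_le f g := by
    unfold NL
    rw [← integral_add (integrable_NL hp f) (integrable_NL hp g)]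
    apply integral_mono (integrable_NL hp (f + g))
      ((integrable_NL hp f).add (integrable_NL hp g))
    intro t
    change |f.1 t + g.1 t| ^ p ≤ |f.1 t| ^ p + |g.1 t| ^ p
    exact (Real.rpow_le_rpow (abs_nonneg _) (abs_add_le _ _) hp.le).trans
      (Real.rpow_add_le_add_rpow (abs_nonneg _) (abs_nonneg _) hp.le hp1)
  smul c f := by
    unfold NL
    rw [← integral_const_mul]
    congr 1
    funext t
    change |c * f.1 t| ^ p = _
    rw [abs_mul, Real.mul_rpow (abs_nonneg _) (abs_nonneg _)]

/-- Restriction to `(-∞, c]`. -/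
noncomputable def cut (c : ℝ) : BV →ₗ[ℝ] BV where
  toFun f := ⟨fun t => if t ≤ c then f.1 t else 0, by
    obtain ⟨hf1, ⟨C, hC⟩, hf3⟩ := f.2
    refine ⟨Measurable.ite measurableSet_Iic hf1 measurable_const, ⟨max C 0, fun t => ?_⟩,
      fun t ht => ?_⟩
    · beta_reduce
      split_ifs
      · exact (hC t).trans (le_max_left _ _)
      · rw [abs_zero]; exact le_max_right _ _
    · beta_reduce
      rw [hf3 t ht, ite_self]⟩
  map_add' f g := by
    apply Subtype.ext
    funext t
    change (if t ≤ c then f.1 t + g.1 t else 0) =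
      (if t ≤ c then f.1 t else 0) + (if t ≤ c then g.1 t else 0)
    split_ifs
    · rfl
    · rw [add_zero]
  map_smul' r f := by
    apply Subtype.ext
    funext t
    change (if t ≤ c then r * f.1 t else 0) = r * (if t ≤ c then f.1 t else 0)
    split_ifs
    · rfl
    · rw [mul_zero]

theorem cut_apply (c : ℝ) (f : BV) (t : ℝ) : (cut c f).1 t = if t ≤ c then f.1 t else 0 := rfl

theorem cut_zero : cut 0 = 0 := by
  apply LinearMap.ext
  intro f
  apply Subtype.ext
  funext t
  rw [cut_apply]
  change (if t ≤ 0 then f.1 t else 0) = 0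
  split_ifs with h
  · exact f.2.2.2 t (fun h1 => absurd h1.1 (not_lt.mpr h))
  · rfl

theorem cut_one : cut 1 = LinearMap.id := by
  apply LinearMap.ext
  intro f
  apply Subtype.ext
  funext t
  rw [cut_apply, LinearMap.id_apply]
  split_ifs with h
  · rfl
  · exact (f.2.2.2 t (fun h1 => absurd h1.2 h)).symm

theorem NL_cut_sub {p : ℝ} (hp : 0 < p) {c d : ℝ} (hcd : c ≤ d) (f : BV) :
    NL p (cut d f - cut c f) = NL p (cut d f) - NL p (cut c f) := by
  unfold NL
  rw [← integral_sub (integrable_NL hp _) (integrable_NL hp _)]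
  congr 1
  funext t
  change |(cut d f).1 t - (cut c f).1 t| ^ p = _
  rw [cut_apply, cut_apply]
  by_cases h1 : t ≤ c
  · rw [if_pos h1, if_pos (h1.trans hcd), sub_self, sub_self, abs_zero, Real.zero_rpow hp.ne']
  · rw [if_neg h1, sub_zero, abs_zero, Real.zero_rpow hp.ne', sub_zero]

theorem NL_sub_cut {p : ℝ} (hp : 0 < p) (c : ℝ) (f : BV) : NL p (f - cut c f) ≤ NL p f := by
  unfold NL
  apply integral_mono (integrable_NL hp _) (integrable_NL hp _)
  intro t
  change |f.1 t - (cut c f).1 t| ^ p ≤ |f.1 t| ^ p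
  apply Real.rpow_le_rpow (abs_nonneg _) _ hp.le
  rw [cut_apply]
  split_ifs
  · rw [sub_self, abs_zero]; exact abs_nonneg _
  · rw [sub_zero]

theorem NL_piece {p : ℝ} (hp : 0 < p) {c d : ℝ} (hcd : c ≤ d) (f : BV) {B : ℝ}
    (hB : ∀ t, |f.1 t| ≤ B) : NL p (cut d f - cut c f) ≤ B ^ p * (d - c) := by
  have hB0 : 0 ≤ B := (abs_nonneg _).trans (hB 0)
  have h1 : ∫ t, (Ioc c d).indicator (fun _ => B ^ p) t = B ^ p * (d - c) := by
    rw [integral_indicator measurableSet_Ioc, setIntegral_const, smul_eq_mul, Measure.real,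
      Real.volume_Ioc, ENNReal.toReal_ofReal (by linarith), mul_comm]
  rw [← h1]
  unfold NL
  apply integral_mono (integrable_NL hp _)
  · rw [integrable_indicator_iff measurableSet_Ioc]
    have h5 : volume (Ioc c d) ≠ ⊤ := by
      rw [Real.volume_Ioc]; exact ENNReal.ofReal_ne_top
    have h6 : ‖B ^ p‖ₑ ≠ ⊤ := enorm_ne_top
    exact integrableOn_const h5 h6
  intro t
  change |(cut d f).1 t - (cut c f).1 t| ^ p ≤ (Ioc c d).indicator (fun _ => B ^ p) t
  rw [cut_apply, cut_apply]
  by_cases h1 : t ≤ c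
  · rw [if_pos h1, if_pos (h1.trans hcd), sub_self, abs_zero, Real.zero_rpow hp.ne']
    exact Set.indicator_nonneg (fun _ _ => by positivity) _
  · rw [if_neg h1, sub_zero]
    by_cases h2 : t ≤ d
    · have hmem : t ∈ Ioc c d := ⟨not_le.mp h1, h2⟩
      rw [if_pos h2, Set.indicator_of_mem hmem]
      exact Real.rpow_le_rpow (abs_nonneg _) (hB t) hp.le
    · rw [if_neg h2, abs_zero, Real.zero_rpow hp.ne']
      exact Set.indicator_nonneg (fun _ _ => by positivity) _

/-- The cut operators. -/
noncomputable def EC {p : ℝ} (hp : 0 < p) (h : PS p (NL p)) (n i : ℕ) :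
    Car hp h →ₗ[ℝ] Car hp h :=
  (toCar hp h).comp ((cut ((i : ℝ) / n)).comp (ofCar hp h))

theorem cutSpace_EC {p : ℝ} (hp : 0 < p) (h : PS p (NL p)) : CutSpace (EC hp h) where
  zero n := by
    unfold EC
    rw [Nat.cast_zero, zero_div, cut_zero]
    rfl
  one n hn := by
    unfold EC
    have hn' : (n : ℝ) ≠ 0 := by exact_mod_cast hn.ne'
    rw [div_self hn', cut_one]
    rfl
  sum_le n v hn := by
    have hn' : (0 : ℝ) < n := by exact_mod_cast hn
    have h1 : ∀ i ∈ Finset.range n, ‖EC hp h n (i + 1) v - EC hp h n i v‖ =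
        NL p (cut (((i + 1 : ℕ) : ℝ) / n) (ofCar hp h v)) -
          NL p (cut ((i : ℝ) / n) (ofCar hp h v)) := by
      intro i _
      rw [← NL_cut_sub hp (by
        apply div_le_div_of_nonneg_right _ hn'.le
        push_cast
        linarith)]
      rfl
    rw [Finset.sum_congr rfl h1,
      Finset.sum_range_sub (fun i : ℕ => NL p (cut ((i : ℝ) / n) (ofCar hp h v))),
      div_self hn'.ne', cut_one, Nat.cast_zero, zero_div, cut_zero]
    rw [LinearMap.zero_apply, h.zero hp, sub_zero]
    exact le_rfl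
  sub_le n i v := NL_sub_cut hp ((i : ℝ) / n) (ofCar hp h v)
  small v := by
    obtain ⟨_, ⟨B, hB⟩, _⟩ := (ofCar hp h v).2
    have hB0 : 0 ≤ B := (abs_nonneg _).trans (hB 0)
    refine ⟨B ^ p, by positivity, fun n hn i hi j hj => ?_⟩
    have hn' : (0 : ℝ) < n := by exact_mod_cast hn
    have h1 := NL_piece hp (c := (i : ℝ) / n) (d := ((i + 1 : ℕ) : ℝ) / n) (by
        apply div_le_div_of_nonneg_right _ hn'.le
        push_cast
        linarith) (cut ((j : ℝ) / n) (ofCar hp h v)) (B := B) (fun t => by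
        rw [cut_apply]
        split_ifs
        · exact hB t
        · rw [abs_zero]; exact hB0)
    refine le_trans (le_of_eq rfl) (h1.trans (le_of_eq ?_))
    push_cast
    field_simp
    ring

/-- The constant function `1` on `(0, 1]`. -/
noncomputable def oneBV : BV := ⟨(Ioc (0 : ℝ) 1).indicator (fun _ => 1), by
  refine ⟨measurable_const.indicator measurableSet_Ioc, ⟨1, fun t => ?_⟩, fun t ht => ?_⟩
  · by_cases h : t ∈ Ioc (0 : ℝ) 1
    · rw [Set.indicator_of_mem h, abs_one]
    · rw [Set.indicator_of_notMem h, abs_zero]; exact zero_le_one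
  · exact Set.indicator_of_notMem ht _⟩

theorem NL_one {p : ℝ} (hp : 0 < p) : NL p oneBV = 1 := by
  unfold NL
  have h1 : (fun t => |oneBV.1 t| ^ p) = (Ioc (0 : ℝ) 1).indicator (fun _ => (1 : ℝ)) := by
    funext t
    change |(Ioc (0 : ℝ) 1).indicator (fun _ => (1 : ℝ)) t| ^ p = _
    by_cases h : t ∈ Ioc (0 : ℝ) 1
    · rw [Set.indicator_of_mem h, abs_one, Real.one_rpow]
    · rw [Set.indicator_of_notMem h, abs_zero, Real.zero_rpow hp.ne']
  rw [h1, integral_indicator measurableSet_Ioc, setIntegral_const, smul_eq_mul, Measure.real,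
    Real.volume_Ioc]
  norm_num

end Q97.FP2
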