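import Pool.Agent.Q97.FP2.Lp
import Pool.Agent.Q97.FP2.Iso
import Pool.Agent.Q97.FP2.Exist

set_option autoImplicit false

/-!
# The free `p`-space of `L_p[0,1]` modulo constants, `0 < p < 1/2`
-/

namespace Q97.FP2

open Q97.FreeP

/-- The main theorem. -/
theorem main (p : ℝ) (hp : 0 < p) (hp2 : p < 1 / 2) :
    ∃ (X : Type) (_ : AddCommGroup X) (_ : Module ℝ X) (q : X → ℝ),
      IsPBanach p q ∧
      (∃ (F : Type) (_ : AddCommGroup F) (_ : Module ℝ F) (Q : F → ℝ) (δ : X → F),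
        IsFreePSpace p q Q δ) ∧
      ∀ (F : Type) [AddCommGroup F] [Module ℝ F] (Q : F → ℝ) (δ : X → F),
        IsFreePSpace p q Q δ →
          (∀ T : F →ₗ[ℝ] (ℕ → F), ¬ IsIsoLp p Q Q T) ∧
          ∀ (G : Type) [AddCommGroup G] [Module ℝ G] (r : G → ℝ), IsPNorm p r →
            (∀ T : F →ₗ[ℝ] (ℕ → G), ¬ IsIsoLp p Q r T) ∧
            ∀ T : F ≃ₗ[ℝ] G × G, ¬ IsIsoSq Q r T := by
  have hps : PS p (NL p) := ps_NL hp (by linarith)
  have he : 0 < ‖cC hp hps oneBV‖ := by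
    rw [norm_cC, NL_one hp]
    exact one_pos
  haveI hcl : IsClosed (Submodule.span ℝ {cC hp hps oneBV} : Set (Cpl hp hps)) :=
    isClosed_line hp (norm_smul_Cpl hp hps) he
  have hrig : Rigid p (cC hp hps oneBV) :=
    rigid_of_cut hp hps (by linarith) (cutSpace_EC hp hps) (by rw [NL_one hp]; exact one_pos)
  have hban : IsPBanach p (qq (e := cC hp hps oneBV) p) :=
    isPBanach_of_normed hp (norm_smul_quot hrig)
  refine ⟨Cpl hp hps ⧸ Submodule.span ℝ {cC hp hps oneBV}, inferInstance, inferInstance,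
    qq (e := cC hp hps oneBV) p, hban, exists_free hp hban.pnorm, ?_⟩
  intro F _ _ Q δ hF
  obtain ⟨ch, h1, h0, hmul, hadd⟩ := exists_character hrig hF
  refine ⟨fun T => not_isIsoLp hp hF.banach.pnorm hF.banach.pnorm h1 h0 hmul T, ?_⟩
  intro G _ _ r hr
  exact ⟨fun T => not_isIsoLp hp hF.banach.pnorm hr h1 h0 hmul T,
    fun T => not_isIsoSq hp hF.banach.pnorm hr h1 h0 hmul hadd T⟩

end Q97.FP2
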